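import Pool.Agent.Helper74.TS.Far

/-!
# The polynomial inequalities of one column

Column `m`, lowest class `e`, other classes `a`, `b`; `X = ν_e - k_ea - k_eb`; `ca`, `cb`: the
multipliers of the slots of the branch (`ν_a, ν_b - κ` if `u_b ≤ u_a`, and `ν_a - κ, ν_b` if not);
`de, da, db ∈ [0, 3/5]` the heights; `W` the bound of the column. A far cell has `w ≤ 13/20`.
`A`, `B` are the numbers `1 - al`, `1 - be` of the far cell for the classes `a`, `b`; `u`, `v` are the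
entries of `a`, `b`, and `s = D - u_e`.
-/

set_option autoImplicit false

namespace Pool.Agent.Helper83.TS

/-- the slot of an entry `u ≥ 0` -/
noncomputable def st (c d u : ℝ) : ℝ := c * u - (1 - d) * u ^ 2 / 2

/-- a majorant of the slot of the entry `D - s` (`e = 1 - d`, `0 ≤ s`, `0 ≤ D`) -/
noncomputable def mj (X e D s : ℝ) : ℝ :=
  X * (D - s) - e * (D - s) ^ 2 / 2 + (D - s) ^ 2 * s / 3

/-- the maximum of the volume of a far cell -/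
noncomputable def vm (w : ℝ) : ℝ := w * (1 + w) ^ 2 / 4 - w ^ 3 / 3

/-! ### The lowest class is the far class -/

/-- kind A for both classes, `w ≤ A, B` -/
def RI (X de ca da cb db W : ℝ) : Prop :=
  ∀ w A B s u v : ℝ, 0 ≤ w → w ≤ 13 / 20 → 0 ≤ A → 0 ≤ B → w ≤ s → s ≤ 1 → 0 ≤ u → u ≤ 1 →
    0 ≤ v → v ≤ 1 → u ≤ 1 - A + da → v ≤ 1 - B + db → A + B ≤ 1 + w → w ≤ A → w ≤ B →
    mj X (1 - de) de s + st ca da u + st cb db v + w * A * B - w ^ 3 / 3 ≤ W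

/-- kind A for both classes, `A ≤ w, B` -/
def RII (X de ca da cb db W : ℝ) : Prop :=
  ∀ w A B s u v : ℝ, 0 ≤ w → w ≤ 13 / 20 → 0 ≤ A → 0 ≤ B → w ≤ s → s ≤ 1 → 0 ≤ u → u ≤ 1 →
    0 ≤ v → v ≤ 1 → u ≤ 1 - A + da → v ≤ 1 - B + db → A + B ≤ 1 + w → A ≤ w → A ≤ B →
    mj X (1 - de) de s + st ca da u + st cb db v + w * A * B - w ^ 2 * A / 3 ≤ W

/-- the class `l` has a negative entry, `B = 1 + w - A` -/
def YY (X de co dO cl dl W : ℝ) : Prop :=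
  ∀ w A s u : ℝ, 0 ≤ w → w ≤ 13 / 20 → 0 ≤ A → A ≤ w - dl → w ≤ s → s ≤ 1 → 0 ≤ u → u ≤ 1 →
    u ≤ 1 - A + dO →
    mj X (1 - de) de s + st co dO u - cl * (w - dl - A) + w * A * (1 + w - A) - w ^ 2 * A / 3 ≤ W

/-- no far cell, `u_e = s ≥ 0` -/
def NP (X de ca da cb db W : ℝ) : Prop :=
  ∀ s u v : ℝ, 0 ≤ s → s ≤ 1 → 0 ≤ u → u ≤ 1 → 0 ≤ v → v ≤ 1 →
    st X de s + st ca da u + st cb db v ≤ W

/-- the class `l` has kind B (coarse) -/
def Bc (X de co dO cl dl K W : ℝ) : Prop :=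
  ∀ w s u v : ℝ, 0 ≤ w → w ≤ 13 / 20 → w ≤ s → s ≤ 1 → 0 ≤ u → u ≤ 1 → 0 ≤ v → v ≤ 1 →
    mj X (1 - de) de s + st co dO u + st cl dl v - K * (v + w) + vm w ≤ W

/-- the class `l` has kind B (exact), `w ≤ A ≤ 1`, `A` belongs to the other class -/
def BxI (X de co dO cl dl K W : ℝ) : Prop :=
  ∀ w A s u v : ℝ, 0 ≤ w → w ≤ 13 / 20 → 0 ≤ A → A ≤ 1 + w → w ≤ s → s ≤ 1 → 0 ≤ u → u ≤ 1 →
    0 ≤ v → v ≤ 1 → u ≤ 1 - A + dO → w ≤ A → A ≤ 1 →
    mj X (1 - de) de s + st co dO u + st cl dl v - K * (v + w) + w * A * (1 + w - A)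
      - w ^ 3 / 3 ≤ W

def BxII (X de co dO cl dl K W : ℝ) : Prop :=
  ∀ w A s u v : ℝ, 0 ≤ w → w ≤ 13 / 20 → 0 ≤ A → A ≤ 1 + w → w ≤ s → s ≤ 1 → 0 ≤ u → u ≤ 1 →
    0 ≤ v → v ≤ 1 → u ≤ 1 - A + dO → A ≤ w →
    mj X (1 - de) de s + st co dO u + st cl dl v - K * (v + w) + w * A * (1 + w - A)
      - w ^ 2 * A / 3 ≤ W

def BxV (X de co dO cl dl K W : ℝ) : Prop :=
  ∀ w A s u v : ℝ, 0 ≤ w → w ≤ 13 / 20 → 0 ≤ A → A ≤ 1 + w → w ≤ s → s ≤ 1 → 0 ≤ u → u ≤ 1 →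
    0 ≤ v → v ≤ 1 → u ≤ 1 - A + dO → 1 ≤ A →
    mj X (1 - de) de s + st co dO u + st cl dl v - K * (v + w) + w * A * (1 + w - A)
      - w ^ 2 * (1 + w - A) / 3 ≤ W

/-- the class `l` has kind B, the other class a negative entry -/
def Bz (X de cl dl K W : ℝ) : Prop :=
  ∀ w s u : ℝ, 0 ≤ w → w ≤ 13 / 20 → w ≤ s → s ≤ 1 → 0 ≤ u → u ≤ 1 →
    mj X (1 - de) de s + st cl dl u - K * (u + w) + vm w ≤ W

/-- the class `l` has kind B -/
def KB (X de co dO cl dl K W : ℝ) : Prop :=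
  Bc X de co dO cl dl K W ∨ (BxI X de co dO cl dl K W ∧ BxII X de co dO cl dl K W ∧
    BxV X de co dO cl dl K W ∧ Bz X de cl dl K W)

/-- both classes have kind B -/
def BB (X de ca da cb db Ka Kb W : ℝ) : Prop :=
  ∀ w s u v : ℝ, 0 ≤ w → w ≤ 13 / 20 → w ≤ s → s ≤ 1 → 0 ≤ u → u ≤ 1 → 0 ≤ v → v ≤ 1 →
    mj X (1 - de) de s + st ca da u + st cb db v - Ka * (u + w) - Kb * (v + w) + vm w ≤ W

/-- one branch: `ca`, `cb` the multipliers of the slots of `a`, `b` -/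
structure Br (X de ca da cb db Ka Kb W : ℝ) : Prop where
  rI : RI X de ca da cb db W
  rII : RII X de ca da cb db W
  rIII : RII X de cb db ca da W
  n : NP X de ca da cb db W
  yb : YY X de ca da cb db W
  ya : YY X de cb db ca da W
  kb : KB X de ca da cb db Kb W
  ka : KB X de cb db ca da Ka W
  bb : BB X de ca da cb db Ka Kb W

/-! ### The far class `i` is not the lowest class, `o` is the third class -/

/-- kind A, `w ≤ B ≤ 1` (`B` belongs to `o`); here `s = d_i - u_e` -/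
def LA1 (X de ci di co dO W : ℝ) : Prop :=
  ∀ w B s u : ℝ, 0 ≤ w → w ≤ 13 / 20 → w ≤ s → s ≤ 1 + di - de → 0 ≤ u → u ≤ 1 →
    u ≤ 1 - B + dO → w ≤ B → B ≤ 1 →
    mj X (1 - de) di s + mj ci (1 - di) di w + st co dO u + w * (1 + w - B) * B - w ^ 3 / 3 ≤ W

/-- kind A, `B ≤ w` -/
def LA2 (X de ci di co dO W : ℝ) : Prop :=
  ∀ w B s u : ℝ, 0 ≤ w → w ≤ 13 / 20 → w ≤ s → s ≤ 1 + di - de → 0 ≤ u → u ≤ 1 →
    u ≤ 1 - B + dO → 0 ≤ B → B ≤ w →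
    mj X (1 - de) di s + mj ci (1 - di) di w + st co dO u + w * (1 + w - B) * B
      - w ^ 2 * B / 3 ≤ W

/-- kind B -/
def LB (X de ci di co dO K W : ℝ) : Prop :=
  ∀ w s u : ℝ, 0 ≤ w → w ≤ 13 / 20 → w ≤ s → s ≤ 1 + di - de → 0 ≤ u → u ≤ 1 →
    mj X (1 - de) di s + mj ci (1 - di) di w + st co dO u - K * (u + w) + vm w ≤ W

/-- `u_o ≤ u_i`; here `u = d_i - u_o` -/
def LC (X de ci di co dO W : ℝ) : Prop :=
  ∀ w s u : ℝ, 0 ≤ w → w ≤ 13 / 20 → w ≤ s → s ≤ 1 + di - de → w ≤ u → u ≤ 1 + di - dO →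
    mj X (1 - de) di s + mj ci (1 - di) di w + mj co (1 - dO) di u + vm w ≤ W

/-- the far class `i`, `κ = k_io`, `K` the multiple of the slack of the pair `i, o` -/
structure Lo (X de νi di νo dO κ K W : ℝ) : Prop where
  a1 : LA1 X de (νi - κ) di νo dO W
  a2 : LA2 X de (νi - κ) di νo dO W
  b : LB X de (νi - κ) di νo dO K W
  c : LC X de νi di (νo - κ) dO W
  m : di * (1 - di) ≤ νi - κ

/-- **all inequalities of a column**; `κ = k_ab`; `Ka`, `Kb`, `Kab` the multiples of the slacks of the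
pairs `{e, a}`, `{e, b}`, `{a, b}` -/
structure Col (X de νa da νb db κ Ka Kb Kab W : ℝ) : Prop where
  br0 : Br X de νa da (νb - κ) db Ka Kb W
  br1 : Br X de (νa - κ) da νb db Ka Kb W
  la : Lo X de νa da νb db κ Kab W
  lb : Lo X de νb db νa da κ Kab W
  hκ : 0 ≤ κ
  hKa : 0 ≤ Ka
  hKb : 0 ≤ Kb
  hKab : 0 ≤ Kab

/-- the coarse form of kind B gives the inequality for two classes of kind B -/
theorem bb_of_bc {X de ca da cb db Ka Kb W : ℝ} (h : Bc X de ca da cb db Kb W) (hK : 0 ≤ Ka) :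
    BB X de ca da cb db Ka Kb W := by
  intro w s u v h1 h2 h3 h4 h5 h6 h7 h8
  have := h w s u v h1 h2 h3 h4 h5 h6 h7 h8
  have h9 := mul_nonneg hK (add_nonneg h5 h1)
  linarith

theorem bb_of_bc' {X de ca da cb db Ka Kb W : ℝ} (h : Bc X de cb db ca da Ka W) (hK : 0 ≤ Kb) :
    BB X de ca da cb db Ka Kb W := by
  intro w s u v h1 h2 h3 h4 h5 h6 h7 h8
  have := h w s v u h1 h2 h3 h4 h7 h8 h5 h6
  have h9 := mul_nonneg hK (add_nonneg h7 h1)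
  linarith

end Pool.Agent.Helper83.TS
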