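import Pool.Agent.Helper83.TS.Kinds

/-!
# The multipliers for a tall class `a`, set A (numbers of helper53)

Classes `b` (index 0; the column of the far cell of `a`), `c`, `l` (index 1), `a` (index 3).
-/

set_option autoImplicit false

namespace Pool.Agent.Helper83.TS.TallA

/-- the row `b` -/
noncomputable def n0 (x : ℝ) : ℝ := 12249 / 12500 - 12297 / 20000 * x

/-- the rows `c`, `l` -/
noncomputable def n1 (x : ℝ) : ℝ := 473 / 625 - 18963 / 100000 * x

/-- the row `a` -/
noncomputable def n3 (x : ℝ) : ℝ := 81949 / 100000 - 79743 / 100000 * x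

/-- the pairs `b, c` and `b, l`; arguments `d_b, d_c` -/
noncomputable def k01 (x y : ℝ) : ℝ := 12249 / 25000 - 58673 / 100000 * x - 58577 / 100000 * y + 29999 / 50000 * x * y

/-- the pair `c, l` -/
noncomputable def k12 (x y : ℝ) : ℝ := 6671 / 25000 - 44091 / 100000 * x - 44091 / 100000 * y + 18391 / 25000 * x * y

/-- the pair `a, b`; arguments `d_b, d_a` -/
noncomputable def q03 (x y : ℝ) : ℝ := 41917 / 100000 - 1109 / 12500 * x - 14579 / 100000 * y - 1689 / 2500 * x * y

/-- the share of the pair `b, x` in the column of the third class; arguments `d_b, d_x` -/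
noncomputable def lm01 (x y : ℝ) : ℝ := 33347 / 100000 - 3841 / 10000 * x - 34303 / 100000 * y + 28871 / 100000 * x * y

/-- the share of the pair `b, x` in the column `a` -/
noncomputable def l01 (x y : ℝ) : ℝ := k01 x y - lm01 x y

/-- the slot of the row `a` in the columns `c`, `l` -/
noncomputable def t3 (x : ℝ) : ℝ := 33663 / 100000 - 31909 / 100000 * x + 23 / 5000 * x ^ 2

/-- the column `b`; heights of `c, l, a` -/
noncomputable def wb (x y z : ℝ) : ℝ :=
  -4391 / 50000 + 27843 / 50000 * x + 27843 / 50000 * y + 171921 / 100000 * z - 8017 / 100000 * x ^ 2 - 8017 / 100000 * y ^ 2 - 5587 / 5000 * z ^ 2 - 7899 / 50000 * x * y + 2247 / 25000 * x * z + 2247 / 25000 * y * z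

/-- the columns `c`, `l`; heights of `b`, `x`, `a` -/
noncomputable def wm (x y z : ℝ) : ℝ :=
  3739 / 12500 + 7269 / 100000 * x + 16417 / 50000 * y + 593 / 100000 * z + 5591 / 50000 * x ^ 2 + 6789 / 25000 * y ^ 2 + 399 / 20000 * z ^ 2 + 691 / 3125 * x * y + 27611 / 50000 * x * z - 139 / 5000 * y * z

/-- the column `a`; heights of `b, c, l` -/
noncomputable def wa (x y z : ℝ) : ℝ :=
  5257 / 10000 + 5807 / 100000 * x + 7637 / 25000 * y + 7637 / 25000 * z + 1623 / 5000 * x ^ 2 + 473 / 1250 * y ^ 2 + 473 / 1250 * z ^ 2 + 21959 / 100000 * x * y + 21959 / 100000 * x * z + 2993 / 100000 * y * z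

theorem k12_comm (x y : ℝ) : k12 x y = k12 y x := by
  unfold k12
  ring

theorem wa_comm (x y z : ℝ) : wa x y z = wa x z y := by
  unfold wa
  ring

end Pool.Agent.Helper83.TS.TallA
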