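import Pool.Agent.Helper83.TS.Kinds

/-!
# The multipliers for a tall class `a`, set B (numbers of helper53)

Classes `b` (index 0; the column of the far cell of `a`), `c`, `l` (index 1), `a` (index 3).
-/

set_option autoImplicit false

namespace Pool.Agent.Helper83.TS.TallB

/-- the row `b` -/
noncomputable def n0 (x : ℝ) : ℝ := 14849 / 20000 - 419 / 2000 * x

/-- the rows `c`, `l` -/
noncomputable def n1 (x : ℝ) : ℝ := 43921 / 50000 - 1811 / 5000 * x

/-- the row `a` -/
noncomputable def n3 (x : ℝ) : ℝ := 10569 / 12500 - 68239 / 100000 * x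

/-- the pairs `b, c` and `b, l`; arguments `d_b, d_c` -/
noncomputable def k01 (x y : ℝ) : ℝ := 18561 / 50000 - 30491 / 100000 * x - 10969 / 20000 * y + 8993 / 20000 * x * y

/-- the pair `c, l` -/
noncomputable def k12 (x y : ℝ) : ℝ := 50719 / 100000 - 20679 / 50000 * x - 20679 / 50000 * y - 209 / 10000 * x * y

/-- the pair `a, b`; arguments `d_b, d_a` -/
noncomputable def q03 (x y : ℝ) : ℝ := 9113 / 25000 + 201 / 12500 * x - 37143 / 100000 * y - 41349 / 100000 * x * y

/-- the share of the pair `b, x` in the column of the third class; arguments `d_b, d_x` -/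
noncomputable def lm01 (x y : ℝ) : ℝ := 8073 / 50000 - 11279 / 100000 * x - 19967 / 100000 * y + 3153 / 25000 * x * y

/-- the share of the pair `b, x` in the column `a` -/
noncomputable def l01 (x y : ℝ) : ℝ := k01 x y - lm01 x y

/-- the slot of the row `a` in the columns `c`, `l` -/
noncomputable def t3 (x : ℝ) : ℝ := 1791 / 5000 - 702 / 3125 * x + 3643 / 100000 * x ^ 2

/-- the multiplier of the kinds B -/
noncomputable def la (x : ℝ) : ℝ := 13469 / 50000 + 17863 / 100000 * x

/-- the column `b`, kinds (B,A); heights of `c, l, a` -/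
noncomputable def wb1 (x y z : ℝ) : ℝ :=
  -4417 / 100000 - 637 / 20000 * x + 2091 / 6250 * y + 83471 / 50000 * z + 4037 / 100000 * x ^ 2 + 1379 / 20000 * y ^ 2 - 72851 / 100000 * z ^ 2 + 32789 / 100000 * x * y - 10059 / 100000 * x * z - 2279 / 100000 * y * z

/-- the column `b`, kinds (B,B) -/
noncomputable def wb2 (x y z : ℝ) : ℝ :=
  -251 / 50000 - 3069 / 100000 * x - 3069 / 100000 * y + 168333 / 100000 * z - 317 / 100000 * x ^ 2 - 317 / 100000 * y ^ 2 - 35443 / 50000 * z ^ 2 + 339 / 1250 * x * y - 2261 / 50000 * x * z - 2261 / 50000 * y * z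

/-- the columns `c`, `l`; heights of `b`, `x`, `a` -/
noncomputable def wm (x y z : ℝ) : ℝ :=
  9997 / 25000 + 12703 / 100000 * x + 42011 / 100000 * y - 31 / 4000 * z + 20243 / 100000 * x ^ 2 - 697 / 5000 * y ^ 2 + 2967 / 50000 * z ^ 2 + 5567 / 100000 * x * y + 14083 / 50000 * x * z + 2577 / 50000 * y * z

/-- the columns `c`, `l` with the multiplier `la` -/
noncomputable def wml (x y z : ℝ) : ℝ :=
  10111 / 50000 + 5069 / 20000 * x + 62787 / 100000 * y + 3301 / 100000 * z - 14031 / 100000 * x ^ 2 - 11893 / 25000 * y ^ 2 - 321 / 20000 * z ^ 2 - 1201 / 20000 * x * y + 53333 / 100000 * x * z + 2819 / 20000 * y * z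

/-- the column `a`; heights of `b, c, l` -/
noncomputable def wa (x y z : ℝ) : ℝ :=
  11609 / 25000 + 40261 / 100000 * x + 951 / 4000 * y + 951 / 4000 * z + 6619 / 100000 * x ^ 2 + 4413 / 10000 * y ^ 2 + 4413 / 10000 * z ^ 2 + 37381 / 100000 * x * y + 37381 / 100000 * x * z + 1629 / 4000 * y * z

theorem k12_comm (x y : ℝ) : k12 x y = k12 y x := by
  unfold k12
  ring

theorem wa_comm (x y z : ℝ) : wa x y z = wa x z y := by
  unfold wa
  ring

end Pool.Agent.Helper83.TS.TallB
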