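import Pool.Agent.Helper83.TS.Defs
import Pool.Agent.Helper78.TS.Types

/-!
# The structure `Col` in the form of the assembly of the types
-/

set_option autoImplicit false

namespace Pool.Agent.Helper83.TS

/-- `Col` with all multipliers given separately -/
def CC (ne na nb kea keb kab Lea Leb Lab W de da db : ℝ) : Prop :=
  Col (ne - kea - keb) de na da nb db kab Lea Leb Lab W

/-! ### The classes `a` and `b` exchanged -/

section

variable {X de ca da cb db Ka Kb W κ Kab : ℝ}

theorem RI.swap (h : RI X de ca da cb db W) : RI X de cb db ca da W := by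
  intro w A B s u v h1 h2 h3 h4 h5 h6 h7 h8 h9 h10 h11 h12 h13 h14 h15
  have := h w B A s v u h1 h2 h4 h3 h5 h6 h9 h10 h7 h8 h12 h11 (by linarith) h15 h14
  linarith

theorem NP.swap (h : NP X de ca da cb db W) : NP X de cb db ca da W := by
  intro s u v h1 h2 h3 h4 h5 h6
  have := h s v u h1 h2 h5 h6 h3 h4
  linarith

theorem BB.swap (h : BB X de ca da cb db Ka Kb W) : BB X de cb db ca da Kb Ka W := by
  intro w s u v h1 h2 h3 h4 h5 h6 h7 h8
  have := h w s v u h1 h2 h3 h4 h7 h8 h5 h6
  linarith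

theorem Br.swap (h : Br X de ca da cb db Ka Kb W) : Br X de cb db ca da Kb Ka W :=
  ⟨h.rI.swap, h.rIII, h.rII, h.n.swap, h.ya, h.yb, h.ka, h.kb, h.bb.swap⟩

theorem Col.swap {νa νb : ℝ} (h : Col X de νa da νb db κ Ka Kb Kab W) :
    Col X de νb db νa da κ Kb Ka Kab W :=
  ⟨h.br1.swap, h.br0.swap, h.lb, h.la, h.hκ, h.hKb, h.hKa, h.hKab⟩

end

theorem CC.swap {ne na nb kea keb kab Lea Leb Lab W de da db : ℝ}
    (h : CC ne na nb kea keb kab Lea Leb Lab W de da db) :
    CC ne nb na keb kea kab Leb Lea Lab W de db da := by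
  unfold CC at *
  have e : ne - keb - kea = ne - kea - keb := by ring
  rw [e]
  exact h.swap

end Pool.Agent.Helper83.TS
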