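import Pool.Agent.Helper83.TS.MixOneCf
import Pool.Agent.Helper44.TS.MixCu

/-!
# `MixedI` in units `1 / 20`

The conventions of `Helper90.TS.Cu`; the class `1` is tall, its main cell has the entries `v 1 m` and the
value `mf 1`, `96000 mf 1 = RM (v 1 2) (v 1 0) (v 1 3)`; its far cell is `(1; 2)`.
-/

set_option autoImplicit false

namespace Pool.Agent.Helper83.TS

open Pool.Agent.Helper84.TS Pool.Agent.Helper23.TS Pool.Agent.Helper36.TS Pool.Agent.Helper90.TS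
  Pool.Agent.Helper74.TS Pool.Agent.Helper59.TS Pool.Agent.Helper44.TS

/-- **The relations of a mixed configuration, case (I)**, units `1 / 20`. -/
structure OkU1 (c : Cu) : Prop where
  e0 : ∀ r, (r = 2 ∨ r = 3) → 0 ≤ c.e r
  es : c.e 2 + c.e 3 ≤ 236 / 25
  lo : ∀ r m, (r = 2 ∨ r = 3) → m ≠ r → -20 ≤ c.v r m
  hi : ∀ r m, (r = 2 ∨ r = 3) → m ≠ r → c.v r m + c.e r / 2 ≤ 20
  vs : ∀ r j k l, (r = 2 ∨ r = 3) → [r, j, k, l].Nodup → c.v r j + c.v r k + c.v r l = 20 - c.e r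
  gr : ∀ r j k l, (r = 2 ∨ r = 3) → [r, j, k, l].Nodup →
    Pool.Agent.Helper65.TS.GR (c.VR r) (c.e r / 40) (c.v r j / 20 + c.e r / 40)
      (c.v r k / 20 + c.e r / 40) (c.v r l / 20 + c.e r / 40)
  -- the cells of the class `0`: present or absent
  cell : ∀ m r z, [0, m, r, z].Nodup →
    PrU (c.f 0 m) (c.w 0 m) (c.X 0 m r) (c.X 0 m z) (c.D 0 m) ∨
      AbU (c.f 0 m) (c.w 0 m) (c.X 0 m r) (c.X 0 m z) (c.D 0 m)
  /-- the high main cell -/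
  main : ∀ j k l, [0, j, k, l].Nodup → c.mf 0 = 0 ∨
    ∃ δ p q s, 3 / 5 ≤ δ ∧ δ < 1 ∧ (-(1 - δ) ≤ p ∧ p ≤ 1) ∧ (-(1 - δ) ≤ q ∧ q ≤ 1) ∧
      (-(1 - δ) ≤ s ∧ s ≤ 1) ∧ p + q + s = 1 + δ ∧ c.mf 0 = ff δ p q s ∧
      (c.w 0 j = -20 ∨ c.w 0 j ≤ 20 * (δ - p)) ∧ (c.w 0 k = -20 ∨ c.w 0 k ≤ 20 * (δ - q)) ∧
      (c.w 0 l = -20 ∨ c.w 0 l ≤ 20 * (δ - s))
  -- the pair of the rows: P1, P2, P3, P4
  pair : (c.v 3 0 + c.e 3 / 2 ≤ c.v 2 0 + c.e 2 / 2 ∧ c.v 2 1 + c.e 2 / 2 ≤ c.v 3 1 + c.e 3 / 2 ∧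
      c.v 3 0 + c.v 2 1 ≤ 0) ∨
    (c.v 2 0 + c.e 2 / 2 ≤ c.v 3 0 + c.e 3 / 2 ∧ c.v 3 1 + c.e 3 / 2 ≤ c.v 2 1 + c.e 2 / 2 ∧
      c.v 2 0 + c.v 3 1 ≤ 0) ∨
    (c.v 3 0 + c.e 3 / 2 ≤ c.v 2 0 + c.e 2 / 2 ∧ c.v 3 1 + c.e 3 / 2 ≤ c.v 2 1 + c.e 2 / 2 ∧
      c.v 3 0 + c.v 3 1 ≤ (c.e 2 - c.e 3) / 2) ∨
    (c.v 2 0 + c.e 2 / 2 ≤ c.v 3 0 + c.e 3 / 2 ∧ c.v 2 1 + c.e 2 / 2 ≤ c.v 3 1 + c.e 3 / 2 ∧
      c.v 2 0 + c.v 2 1 ≤ (c.e 3 - c.e 2) / 2)
  -- a cell and a row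
  kd : ∀ i m r z, (i = 0 ∨ i = 1) → (r = 2 ∨ r = 3) → [i, m, r, z].Nodup →
    c.v r m ≤ 20 - c.X i m r ∨ c.KB i m r z
  f1 : ∀ i m r z, (i = 0 ∨ i = 1) → (r = 2 ∨ r = 3) → (z = 2 ∨ z = 3) → [i, m, r, z].Nodup →
    c.KB i m r z → ¬ c.KB i m z r
  f2 : ∀ m r z, (r = 2 ∨ r = 3) → [0, m, r, z].Nodup → c.KB 0 m r z → ¬ c.KB 0 z r m
  -- two cells of the class `0`
  sp : ∀ m n r, [0, m, n, r].Nodup → c.X 0 m r ≤ 20 - c.w 0 n ∨ c.X 0 n r ≤ 20 - c.w 0 m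
  -- the tall class
  t0 : c.f 1 0 = 0
  t3 : c.f 1 3 = 0
  tf : PrU (c.f 1 2) (c.w 1 2) (c.X 1 2 0) (c.X 1 2 3) (c.D 1 2)
  te : 0 ≤ c.e 1 ∧ c.e 1 < 24
  tu : c.v 1 0 + c.v 1 2 + c.v 1 3 = 20 - c.e 1
  tx : c.v 1 0 + c.e 1 / 2 ≤ 20 ∧ c.v 1 3 + c.e 1 / 2 ≤ 20
  tb : 13 < c.v 1 0 + c.e 1 / 2 ∧ 13 < c.v 1 3 + c.e 1 / 2
  tw : 13 < c.w 1 2 ∧ c.w 1 2 ≤ -c.v 1 2 ∧ -c.v 1 2 ≤ 20
  tz : c.v 1 2 + c.e 1 / 2 ≤ 0
  tm : 96000 * c.mf 1 = RM (c.v 1 2) (c.v 1 0) (c.v 1 3)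
  /-- the cell `(0; 3)` on the tall class -/
  tr : c.v 1 3 ≤ 20 - c.X 0 3 1 ∨ c.KB 0 3 1 2
  /-- the cell `(0; 3)` is not of kind B on the tall class and on the row `2` -/
  tf1 : c.KB 0 3 1 2 → ¬ c.KB 0 3 2 1
  /-- the cells `(0; 3)` and `(1; 2)` -/
  cr : c.X 0 3 1 + c.X 1 2 0 ≤ 40
  /-- the cells `(0; 2)` and `(1; 2)` of the column `2`, short form -/
  cs : c.X 0 2 1 ≤ c.D 1 2 ∨ c.X 1 2 0 ≤ c.D 0 2
  /-- the cells `(0; 2)` and `(1; 2)` of the column `2`, exact form -/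
  cf : c.w 0 2 = -20 ∨
    (c.w 0 2 ≤ c.w 1 2 ∧ c.X 0 2 1 ≤ c.D 1 2 - 20 + c.w 1 2) ∨
    (c.w 0 2 ≤ c.w 1 2 ∧ c.X 1 2 0 ≤ c.D 0 2 - 20 + c.w 1 2) ∨
    (c.w 1 2 ≤ c.w 0 2 ∧ c.X 0 2 1 ≤ c.D 1 2 - 20 + c.w 0 2) ∨
    (c.w 1 2 ≤ c.w 0 2 ∧ c.X 1 2 0 ≤ c.D 0 2 - 20 + c.w 0 2)
  /-- the row `2` and the tall class -/
  tc : (c.v 2 0 + c.e 2 / 2 ≤ c.v 1 0 + c.e 1 / 2 ∧ c.v 2 3 + c.e 2 / 2 ≤ c.v 1 3 + c.e 1 / 2 ∧
      c.v 2 0 + c.v 2 3 ≤ (c.e 1 - c.e 2) / 2) ∨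
    (c.v 1 0 + c.e 1 / 2 ≤ c.v 2 0 + c.e 2 / 2 ∧ c.v 2 3 + c.e 2 / 2 ≤ c.v 1 3 + c.e 1 / 2 ∧
      c.v 1 0 + c.v 2 3 ≤ 0) ∨
    (c.v 2 0 + c.e 2 / 2 ≤ c.v 1 0 + c.e 1 / 2 ∧ c.v 1 3 + c.e 1 / 2 ≤ c.v 2 3 + c.e 2 / 2 ∧
      c.v 2 0 + c.v 1 3 ≤ 0)
  /-- the row `3` and the tall class -/
  tl : (c.v 3 0 + c.e 3 / 2 ≤ c.v 1 0 + c.e 1 / 2 ∧ c.v 3 2 + c.e 3 / 2 ≤ c.v 1 2 + c.e 1 / 2 ∧
      c.v 3 0 + c.v 3 2 ≤ (c.e 1 - c.e 3) / 2) ∨
    (c.v 1 0 + c.e 1 / 2 ≤ c.v 3 0 + c.e 3 / 2 ∧ c.v 1 2 + c.e 1 / 2 ≤ c.v 3 2 + c.e 3 / 2 ∧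
      c.v 1 0 + c.v 1 2 ≤ (c.e 3 - c.e 1) / 2) ∨
    (c.v 1 0 + c.e 1 / 2 ≤ c.v 3 0 + c.e 3 / 2 ∧ c.v 3 2 + c.e 3 / 2 ≤ c.v 1 2 + c.e 1 / 2 ∧
      c.v 1 0 + c.v 3 2 ≤ 0) ∨
    (c.v 3 0 + c.e 3 / 2 ≤ c.v 1 0 + c.e 1 / 2 ∧ c.v 1 2 + c.e 1 / 2 ≤ c.v 3 2 + c.e 3 / 2 ∧
      c.v 3 0 + c.v 1 2 ≤ 0)

section

variable {c : Cf} {i m r z : Fin 4}

theorem OkF1.fdi (h : OkF1 c) (hi : i = 0 ∨ i = 1) (hn : [i, m, r, z].Nodup) (hp : c.pr i m) :
    Fd (c.f i m) (c.w i m) (c.X i m r) (c.X i m z) (c.D i m) := by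
  rcases hi with rfl | rfl
  · exact h.fd m r z hn hp
  · have hm : m = 2 ∧ ((r = 0 ∧ z = 3) ∨ (r = 3 ∧ z = 0)) ∨ m = 0 ∨ m = 3 := by
      clear * - hn; revert hn; revert m r z; decide
    rcases hm with ⟨rfl, ⟨rfl, rfl⟩ | ⟨rfl, rfl⟩⟩ | rfl | rfl
    · exact h.tf
    · have k := h.tf
      refine ⟨k.w0, k.w1, k.b0, k.a0, k.d0, k.d1, by linarith [k.sum], k.bl, k.al, ?_⟩
      rw [k.vol]
      unfold vl
      ring
    · exact absurd hp h.t0
    · exact absurd hp h.t3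

/-- kind B in the two units: the row `r` has the sum `1 + d` -/
theorem OkF1.KBs (h : OkF1 c) (hn : [i, m, r, z].Nodup) (hi : i = 0 ∨ i = 1)
    (hs : c.u r i + c.u r m + c.u r z = 1 + c.d r) :
    (cuOf c).KB i m r z ↔ c.KB i m r z := by
  constructor
  · rintro ⟨h1, h2, h3⟩
    have hp : c.pr i m := by
      by_contra hp
      rw [cuOf_D' hp] at h3
      norm_num at h3
    rw [cuOf_D hp] at h1
    rw [cuOf_X hp] at h2
    simp only [cuOf] at h1 h2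
    exact ⟨hp, by linarith, by linarith, by linarith⟩
  · rintro ⟨hp, h1, h2, h3⟩
    have k := h.fdi hi hn hp
    refine ⟨?_, ?_, ?_⟩
    · rw [cuOf_D hp]
      simp only [cuOf]
      linarith
    · rw [cuOf_X hp]
      simp only [cuOf]
      linarith
    · rw [cuOf_D hp]
      linarith [k.d1]

theorem OkF1.KB (h : OkF1 c) (hr : r = 2 ∨ r = 3) (hn : [i, m, r, z].Nodup) (hi : i = 0 ∨ i = 1) :
    (cuOf c).KB i m r z ↔ c.KB i m r z :=
  h.KBs hn hi (h.us r i m z hr (row_perm hn))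

end

/-- **The configuration in units `1 / 20`.** -/
theorem okU1_of {c : Cf} (h : OkF1 c) : OkU1 (cuOf c) := by
  have hs3 : c.u 1 0 + c.u 1 3 + c.u 1 2 = 1 + c.d 1 := by linarith [h.tu]
  have hk3 := h.KBs (i := 0) (m := 3) (r := 1) (z := 2) (by decide) (Or.inl rfl) hs3
  constructor
  · intro r hr
    have := h.d0 r hr
    simp only [cuOf]
    linarith
  · have := h.ds
    simp only [cuOf]
    linarith
  · intro r m hr hm
    have := h.lo r m hr hm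
    simp only [cuOf]
    linarith
  · intro r m hr hm
    have := h.hi r m hr hm
    simp only [cuOf]
    linarith
  · intro r j k l hr hn
    have := h.us r j k l hr hn
    simp only [cuOf]
    linarith
  · intro r j k l hr hn
    have := h.gr r j k l hr hn
    simp only [cuOf]
    rw [show 40 * c.d r / 40 = c.d r by ring, show 20 * (c.u r j - c.d r) / 20 + c.d r = c.u r j by ring,
      show 20 * (c.u r k - c.d r) / 20 + c.d r = c.u r k by ring,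
      show 20 * (c.u r l - c.d r) / 20 + c.d r = c.u r l by ring]
    exact this
  · intro m r z hn
    by_cases hp : c.pr 0 m
    · left
      have k := h.fd m r z hn hp
      rw [cuOf_w hp, cuOf_X hp, cuOf_X hp, cuOf_D hp]
      refine ⟨by linarith [k.w0], by linarith [k.w1], by linarith [k.a0], by linarith [k.b0],
        by linarith [k.d0], by linarith [k.d1], by linarith [k.sum], ?_⟩
      rw [show 20 * c.w 0 m / 20 = c.w 0 m by ring, show 20 * c.X 0 m r / 20 = c.X 0 m r by ring,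
        show 20 * c.X 0 m z / 20 = c.X 0 m z by ring]
      exact k.vol
    · right
      have k := h.ab 0 m r (Or.inl rfl) hp
      exact ⟨cuOf_w' hp, cuOf_X' hp, cuOf_X' hp, cuOf_D' hp, k.1⟩
  · intro j k l hn
    by_cases hp : c.mp 0
    · right
      obtain ⟨h1, h2⟩ := h.mn hp
      obtain ⟨h3, h4⟩ := h.mus j k l hn hp
      have n := nodup_ne hn
      have sat : ∀ m, m ≠ 0 → (cuOf c).w 0 m = -20 ∨
          (cuOf c).w 0 m ≤ 20 * (c.md 0 - c.mu 0 m) := by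
        intro m hm
        by_cases hq : c.pr 0 m
        · right
          have h5 := h.msat m hm hp hq
          obtain ⟨r, z, hrz⟩ := other 0 m hm
          have k5 := (h.fd m r z hrz hq).d0
          have h6 : max (c.md 0 - c.D 0 m) 0 ≤ c.md 0 := max_le (by linarith) (by linarith)
          rw [cuOf_w hq]
          linarith
        · exact Or.inl (cuOf_w' hq)
      exact ⟨c.md 0, c.mu 0 j, c.mu 0 k, c.mu 0 l, h1, h2, h.mlo j n.1 hp,
        h.mlo k n.2.1 hp, h.mlo l n.2.2 hp, h3, h4, sat j n.1, sat k n.2.1, sat l n.2.2⟩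
    · exact Or.inl (h.mab hp)
  · have := h.pair
    simp only [cuOf]
    rcases this with h1 | h1 | h1 | h1
    · exact Or.inl ⟨by linarith, by linarith, by linarith⟩
    · exact Or.inr (Or.inl ⟨by linarith, by linarith, by linarith⟩)
    · exact Or.inr (Or.inr (Or.inl ⟨by linarith, by linarith, by linarith⟩))
    · exact Or.inr (Or.inr (Or.inr ⟨by linarith, by linarith, by linarith⟩))
  · intro i m r z hi hr hn
    rcases h.kd i m r z hi hr hn with k | k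
    · left
      by_cases hp : c.pr i m
      · rw [cuOf_X hp]
        simp only [cuOf]
        linarith
      · have hmr : m ≠ r := by
          clear * - hn; revert hn; revert i m r z; decide
        have h1 := h.hi r m hr hmr
        have h0 := h.d0 r hr
        rw [cuOf_X' hp]
        simp only [cuOf]
        linarith
    · exact Or.inr ((h.KB hr hn hi).2 k)
  · intro i m r z hi hr hz hn h1 h2
    exact h.f1 i m r z hi hr hz hn ((h.KB hr hn hi).1 h1)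
      ((h.KB hz (perm_last hn) hi).1 h2)
  · intro m r z hr hn h1 h2
    have hn2 : [0, z, r, m].Nodup := by
      clear * - hn; revert hn; revert m r z; decide
    exact h.f2 m r z hr hn ((h.KB hr hn (Or.inl rfl)).1 h1) ((h.KB hr hn2 (Or.inl rfl)).1 h2)
  · intro m n r hn
    have hn2 : [0, m, r, n].Nodup := perm_last hn
    have hn3 : [0, n, r, m].Nodup := by
      clear * - hn; revert hn; revert m n r; decide
    by_cases hp : c.pr 0 m
    · have k := h.fd m r n hn2 hp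
      by_cases hq : c.pr 0 n
      · rw [cuOf_X hp, cuOf_X hq, cuOf_w hp, cuOf_w hq]
        rcases h.sp m n r hn hp hq with h1 | h1
        · left; linarith
        · right; linarith
      · left
        rw [cuOf_X hp, cuOf_w' hq]
        linarith [k.al, k.w1, k.d0]
    · right
      rw [cuOf_w' hp]
      by_cases hq : c.pr 0 n
      · have k := h.fd n r m hn3 hq
        rw [cuOf_X hq]
        linarith [k.al, k.w1, k.d0]
      · rw [cuOf_X' hq]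
        norm_num
  · exact (h.ab 1 0 0 (Or.inr rfl) h.t0).1
  · exact (h.ab 1 3 0 (Or.inr rfl) h.t3).1
  · have k := h.tf
    have hp := h.tp
    rw [cuOf_w hp, cuOf_X hp, cuOf_X hp, cuOf_D hp]
    refine ⟨by linarith [k.w0], by linarith [k.w1], by linarith [k.a0], by linarith [k.b0],
      by linarith [k.d0], by linarith [k.d1], by linarith [k.sum], ?_⟩
    rw [show 20 * c.w 1 2 / 20 = c.w 1 2 by ring, show 20 * c.X 1 2 0 / 20 = c.X 1 2 0 by ring,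
      show 20 * c.X 1 2 3 / 20 = c.X 1 2 3 by ring]
    exact k.vol
  · have := h.td
    simp only [cuOf]
    constructor <;> linarith
  · have := h.tu
    simp only [cuOf]
    linarith
  · have := h.tx
    simp only [cuOf]
    constructor <;> linarith
  · have := h.tb
    simp only [cuOf]
    constructor <;> linarith
  · have := h.tw
    rw [cuOf_w h.tp]
    simp only [cuOf]
    refine ⟨?_, ?_, ?_⟩ <;> linarith
  · have := h.tz
    simp only [cuOf]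
    linarith
  · have hu := h.tu
    have hz := h.tz
    simp only [cuOf]
    have e5 : 20 * (c.u 1 2 - c.d 1) + 20 * (c.u 1 0 - c.d 1) + 20 * (c.u 1 3 - c.d 1) - 20
        - 2 * (20 * (c.u 1 2 - c.d 1)) = 40 * (-c.u 1 2) := by linarith
    unfold RM Pool.Agent.Helper62.NE.pR
    rw [e5, max_eq_left (by linarith), h.tm]
    unfold Pool.Agent.Helper65.TS.mp
    have e4 : c.u 1 2 = 1 + c.d 1 - c.u 1 0 - c.u 1 3 := by linarith
    rw [e4]
    ring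
  · rcases h.tr with k | k
    · left
      by_cases hp : c.pr 0 3
      · rw [cuOf_X hp]
        simp only [cuOf]
        linarith
      · rw [cuOf_X' hp]
        simp only [cuOf]
        linarith [h.tx.2, h.td.1]
    · exact Or.inr (hk3.2 k)
  · intro h1 h2
    exact h.tf1 (hk3.1 h1) ((h.KB (Or.inl rfl) (by decide) (Or.inl rfl)).1 h2)
  · have k := h.tf
    rw [cuOf_X h.tp]
    by_cases hp : c.pr 0 3
    · rw [cuOf_X hp]
      linarith [h.cr hp]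
    · rw [cuOf_X' hp]
      linarith [k.al, k.w1, k.d0]
  · have k := h.tf
    rw [cuOf_X h.tp, cuOf_D h.tp]
    by_cases hp : c.pr 0 2
    · have k2 := h.fd 2 1 3 (by decide) hp
      rw [cuOf_X hp, cuOf_D hp]
      rcases h.cf hp with ⟨-, h1⟩ | ⟨-, h1⟩ | ⟨-, h1⟩ | ⟨-, h1⟩
      · left; linarith [k.w1]
      · right; linarith [k.w1]
      · left; linarith [k2.w1]
      · right; linarith [k2.w1]
    · right
      rw [cuOf_D' hp]
      linarith [k.al, k.w1, k.d0]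
  · rw [cuOf_X h.tp, cuOf_D h.tp, cuOf_w h.tp]
    by_cases hp : c.pr 0 2
    · rw [cuOf_X hp, cuOf_D hp, cuOf_w hp]
      rcases h.cf hp with ⟨h0, h1⟩ | ⟨h0, h1⟩ | ⟨h0, h1⟩ | ⟨h0, h1⟩
      · exact Or.inr (Or.inl ⟨by linarith, by linarith⟩)
      · exact Or.inr (Or.inr (Or.inl ⟨by linarith, by linarith⟩))
      · exact Or.inr (Or.inr (Or.inr (Or.inl ⟨by linarith, by linarith⟩)))
      · exact Or.inr (Or.inr (Or.inr (Or.inr ⟨by linarith, by linarith⟩)))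
    · exact Or.inl (cuOf_w' hp)
  · have := h.tc
    simp only [cuOf]
    rcases this with h1 | h1 | h1
    · exact Or.inl ⟨by linarith, by linarith, by linarith⟩
    · exact Or.inr (Or.inl ⟨by linarith, by linarith, by linarith⟩)
    · exact Or.inr (Or.inr ⟨by linarith, by linarith, by linarith⟩)
  · have := h.tl
    simp only [cuOf]
    rcases this with h1 | h1 | h1 | h1
    · exact Or.inl ⟨by linarith, by linarith, by linarith⟩
    · exact Or.inr (Or.inl ⟨by linarith, by linarith, by linarith⟩)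
    · exact Or.inr (Or.inr (Or.inl ⟨by linarith, by linarith, by linarith⟩))
    · exact Or.inr (Or.inr (Or.inr ⟨by linarith, by linarith, by linarith⟩))

/-- **`MixedI` from the bound for configurations in units `1 / 20`.** -/
theorem mixedI_of_cu (t : ∀ c : Cu, OkU1 c → c.val ≤ 613 / 200) : MixedI := by
  intro A P a b x y h F hF
  rw [cfOf_val (P := P) h.hn]
  exact t _ (okU1_of (okF1_of h hF))

end Pool.Agent.Helper83.TS
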