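import Pool.Agent.Helper83.TS.T2311D

/-!
# Type (2,3,1,1): the total
-/

set_option autoImplicit false
set_option maxRecDepth 100000

namespace Pool.Agent.Helper83.TS.T2311

open Pool.Agent.Helper83.Cert Pool.Agent.Helper36.TS

/-- **The total** of the type (2,3,1,1) -/
theorem tot {a b c d : ℝ} (ha : 0 ≤ a) (hb : 0 ≤ b) (hc : 0 ≤ c) (hd : 0 ≤ d)
    (ha1 : a ≤ 3 / 5) (hb1 : b ≤ 3 / 5) (hc1 : c ≤ 3 / 5) (hd1 : d ≤ 3 / 5) :
    rowc (n1 a) a + rowc (n2 b) b + rowc (n3 c) c + rowc (n4 d) d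
      + k12 a b * (a + b) + k13 a c * (a + c) + k14 a d * (a + d) + k23 b c * (b + c) + k24 b d * (b + d)
    + k34 c d * (c + d)
      + (w1 b c d + w2 a c d + w3 a b d + w4 a b c) ≤ 613 / 200 := by
  have h := cert (y := yv a b c d 0 0 0 0 0) (gs := [.v 2, .v 3, .v 5, .v 7, .sub (.c 3) (.mul (.c 5) (.v 2)), .sub (.c 3) (.mul (.c 5) (.v 3)), .sub
    (.c 3) (.mul (.c 5) (.v 5)), .sub (.c 3) (.mul (.c 5) (.v 7))])
    (p := .mul (.c 250000) (.add (.add (.add (.add (.c (8666)) (.add (.mul (.c (12330)) (.v 7)) (.mul (.mul (.c (-108588)) (.v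
    7)) (.v 7)))) (.add (.add (.mul (.mul (.mul (.c (122140)) (.v 7)) (.v 7)) (.v 7)) (.mul (.c
    (-14820)) (.v 5))) (.add (.mul (.mul (.c (305898)) (.v 5)) (.v 7)) (.mul (.mul (.mul (.c
    (-251340)) (.v 5)) (.v 7)) (.v 7))))) (.add (.add (.add (.mul (.mul (.c (-34362)) (.v 5)) (.v 5))
    (.mul (.mul (.mul (.c (-251340)) (.v 5)) (.v 5)) (.v 7))) (.add (.mul (.mul (.mul (.c (91300)) (.v
    5)) (.v 5)) (.v 5)) (.mul (.c (26184)) (.v 3)))) (.add (.add (.mul (.mul (.c (100062)) (.v 3)) (.v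
    7)) (.mul (.mul (.mul (.c (-73740)) (.v 3)) (.v 7)) (.v 7))) (.add (.mul (.mul (.c (92982)) (.v
    3)) (.v 5)) (.mul (.mul (.mul (.c (-73860)) (.v 3)) (.v 5)) (.v 5)))))) (.add (.add (.add (.add
    (.mul (.mul (.c (-171990)) (.v 3)) (.v 3)) (.mul (.mul (.mul (.c (-73740)) (.v 3)) (.v 3)) (.v
    7))) (.add (.mul (.mul (.mul (.c (-73860)) (.v 3)) (.v 3)) (.v 5)) (.mul (.mul (.mul (.c (194620))
    (.v 3)) (.v 3)) (.v 3)))) (.add (.add (.mul (.c (-43320)) (.v 2)) (.mul (.mul (.c (255462)) (.v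
    2)) (.v 7))) (.add (.mul (.mul (.mul (.c (-201360)) (.v 2)) (.v 7)) (.v 7)) (.mul (.mul (.c
    (172782)) (.v 2)) (.v 5))))) (.add (.add (.add (.mul (.mul (.mul (.c (-141180)) (.v 2)) (.v 5))
    (.v 5)) (.mul (.mul (.c (402546)) (.v 2)) (.v 3))) (.add (.mul (.mul (.mul (.c (-326580)) (.v 2))
    (.v 3)) (.v 3)) (.mul (.mul (.c (112464)) (.v 2)) (.v 2)))) (.add (.add (.mul (.mul (.mul (.c
    (-201360)) (.v 2)) (.v 2)) (.v 7)) (.mul (.mul (.mul (.c (-141180)) (.v 2)) (.v 2)) (.v 5))) (.add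
    (.mul (.mul (.mul (.c (-326580)) (.v 2)) (.v 2)) (.v 3)) (.mul (.mul (.mul (.c (-90140)) (.v 2))
    (.v 2)) (.v 2))))))))
    (e := (.add (.add (.add (.add (.mul (.g 1) (.add (.add (.mul (.pp [(1, 1021155)]) (.sq [(1, -44), (2,
    10), (3, 100), (5, 10), (7, -37)])) (.add (.mul (.pp [(1, 243150)]) (.sq [(1, -33), (2, -46), (3,
    100), (5, 22), (7, -54)])) (.mul (.pp [(1, 2507130)]) (.sq [(1, -44), (2, -5), (3, 100), (5,
    -24)])))) (.add (.add (.mul (.g 0) (.add (.add (.mul (.g 2) (.pp [(1, 1369200000)])) (.mul (.g 3)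
    (.pp [(1, 682800000)]))) (.add (.mul (.g 4) (.pp [(1, 13035030000)])) (.mul (.g 5) (.pp [(1,
    15296580000)]))))) (.mul (.g 2) (.add (.mul (.g 3) (.pp [(1, 1428900000)])) (.add (.mul (.g 5)
    (.pp [(1, 1787640000)])) (.mul (.g 6) (.pp [(1, 1043730000)])))))) (.add (.mul (.g 3) (.add (.mul
    (.g 5) (.pp [(1, 1535070000)])) (.mul (.g 7) (.pp [(1, 2368500000)])))) (.mul (.g 5) (.mul (.g 5)
    (.pp [(1, 462732000)]))))))) (.mul (.g 3) (.add (.add (.mul (.pp [(1, 148545)]) (.sq [(1, -40),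
    (2, -23), (5, -27), (7, 100)])) (.mul (.pp [(1, 1017390)]) (.sq [(1, -31), (2, -27), (3, -35), (5,
    -13), (7, 100)]))) (.add (.mul (.g 0) (.add (.mul (.g 2) (.pp [(1, 77850000)])) (.add (.mul (.g 4)
    (.pp [(1, 7014330000)])) (.mul (.g 7) (.pp [(1, 8889060000)]))))) (.add (.mul (.g 2) (.add (.mul
    (.g 6) (.pp [(1, 9070620000)])) (.mul (.g 7) (.pp [(1, 11851560000)])))) (.mul (.g 7) (.mul (.g 7)
    (.pp [(1, 758862000)])))))))) (.add (.mul (.g 0) (.add (.mul (.pp [(1, 330165)]) (.sq [(1, 2), (2,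
    100), (3, -74), (5, -60), (7, -87)])) (.add (.mul (.g 2) (.add (.mul (.g 4) (.pp [(1,
    4451160000)])) (.mul (.g 6) (.pp [(1, 2916570000)])))) (.mul (.g 0) (.mul (.g 4) (.pp [(1,
    2268210000)])))))) (.mul (.g 5) (.add (.mul (.pp [(1, 28065)]) (.sq [(1, -86), (2, 100), (3, 59),
    (5, 100), (7, 100)])) (.add (.mul (.pp [(1, 4041)]) (.sq [(1, -28), (2, 100), (3, 21), (5, 34),
    (7, 25)])) (.mul (.pp [(1, 7320)]) (.sq [(1, -45), (2, 63), (3, 60), (5, 100), (7, 21)])))))))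
    (.add (.add (.mul (.g 2) (.add (.mul (.pp [(1, 229815)]) (.sq [(1, -16), (2, -24), (3, -67), (5,
    100), (7, -54)])) (.mul (.pp [(1, 2425830)]) (.sq [(1, -32), (2, -26), (3, -17), (5, 100), (7,
    -21)])))) (.mul (.g 4) (.add (.mul (.pp [(1, 156558)]) (.sq [(1, -31), (2, 100), (3, 22), (5, 32),
    (7, 26)])) (.mul (.pp [(1, 133383)]) (.sq [(1, -32), (2, 100), (3, 53), (5, 18), (7, 44)])))))
    (.add (.mul (.g 6) (.mul (.pp [(1, 74658)]) (.sq [(1, -47), (2, 96), (3, 24), (5, 100), (7,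
    63)]))) (.mul (.g 7) (.mul (.pp [(1, 8115)]) (.sq [(1, -54), (2, 100), (3, 37), (5, 98), (7,
    49)])))))) (.pp [(1, 62962472), (2, 1417266), (3, 1421526), (4, 1586376), (5, 1419186), (6,
    1708008), (7, 1447350), (8, 1450000), (9, 1575696), (10, 1614960), (12, 1433250), (14, 1685976),
    (15, 1629612), (18, 1343055), (20, 1536120), (21, 1654032), (25, 1585980), (27, 1491730), (28,
    1373385), (30, 1425900), (35, 1585008), (42, 1440780), (45, 1452375), (49, 1510626), (50,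
    1509420), (63, 1443675), (70, 1381650), (75, 1485000), (98, 1442595), (105, 1317600), (125,
    1450000), (147, 1387080), (175, 1496085), (245, 1495740), (343, 1520575)])))
    (by decide +kernel) (yv_nonneg ha hb hc hd (le_refl 0) (le_refl 0) (le_refl 0) (le_refl 0) (le_refl 0))
    (by
      simp only [List.forall_mem_cons, exsub, exmul, exc, exv2, exv3, exv5, exv7]
      push_cast
      exact ⟨ha, hb, hc, hd, by linarith, by linarith, by linarith, by linarith,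
        fun _ hh => absurd hh List.not_mem_nil⟩)
  simp only [exadd, exmul, exc, exv2, exv3, exv5, exv7] at h
  push_cast at h
  simp only [rowc, n1, n2, n3, n4, k12, k13, k14, k23, k24, k34, w1, w2, w3, w4]
  linarith [h]

end Pool.Agent.Helper83.TS.T2311
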