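import Pool.Agent.Helper83.Cert.Check
import Pool.Agent.Helper83.TS.Defs

/-!
# Certificates for the inequalities of a column

The variables of the certificates: `v 2, v 3, v 5` the three heights `x, y, z` of the column, `v 7` is
`w`, `v 11` is `s`, `v 13` and `v 17` are `u`, `v`, and `v 19`, `v 23` are `A`, `B`. The multipliers
and `W` are given by expressions with the value `100000` times the number.
-/

set_option autoImplicit false

namespace Pool.Agent.Helper83.TS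

open Pool.Agent.Helper83.Cert


/-- the value of an expression in the three heights -/
structure Dt (x y z : ℝ) (E : Ex) (r : ℝ) : Prop where
  h : ∀ w s u v A B : ℝ, exVal (yv x y z w s u v A B) E = r

theorem Dt.sub {x y z : ℝ} {E F : Ex} {r t : ℝ} (h1 : Dt x y z E (100000 * r))
    (h2 : Dt x y z F (100000 * t)) : Dt x y z (Ex.sub E F) (100000 * (r - t)) :=
  ⟨fun w s u v A B => by rw [exsub, h1.h, h2.h]; ring⟩

theorem Dt.v3 (x y z : ℝ) : Dt x y z (Ex.v 3) y := ⟨fun _ _ _ _ _ _ => exv3 ..⟩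

theorem Dt.v5 (x y z : ℝ) : Dt x y z (Ex.v 5) z := ⟨fun _ _ _ _ _ _ => exv5 ..⟩

/-- the heights -/
structure Bd (x y z : ℝ) : Prop where
  x0 : 0 ≤ x
  y0 : 0 ≤ y
  z0 : 0 ≤ z
  x1 : x ≤ 3 / 5
  y1 : y ≤ 3 / 5
  z1 : z ≤ 3 / 5

/-- the constraints of the heights -/
def bE : List Ex :=
    [Ex.v 2, Ex.v 3, Ex.v 5, Ex.sub (Ex.c 3) (Ex.mul (Ex.c 5) (Ex.v 2)), Ex.sub (Ex.c 3) (Ex.mul
    (Ex.c 5) (Ex.v 3)), Ex.sub (Ex.c 3) (Ex.mul (Ex.c 5) (Ex.v 5))]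

theorem bE_nn {x y z : ℝ} (h : Bd x y z) (w s u v A B : ℝ) :
    ∀ g ∈ bE, 0 ≤ exVal (yv x y z w s u v A B) g := by
  simp only [bE, List.forall_mem_cons, exsub, exmul, exc, exv2, exv3, exv5]
  push_cast
  exact ⟨h.x0, h.y0, h.z0, by linarith [h.x1], by linarith [h.y1], by linarith [h.z1],
    fun _ hh => absurd hh List.not_mem_nil⟩

/-- `600000 mj` -/
def mjE (X E D S : Ex) : Ex :=
    Ex.add (Ex.sub (Ex.mul (Ex.mul (Ex.c 6) X) (Ex.sub D S)) (Ex.mul (Ex.mul (Ex.mul (Ex.c 300000)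
    E) (Ex.sub D S)) (Ex.sub D S))) (Ex.mul (Ex.mul (Ex.mul (Ex.c 200000) (Ex.sub D S)) (Ex.sub D
    S)) S)

/-- `600000 st` -/
def stE (C D U : Ex) : Ex :=
    Ex.sub (Ex.mul (Ex.mul (Ex.c 6) C) U) (Ex.mul (Ex.mul (Ex.mul (Ex.c 300000) (Ex.sub (Ex.c 1)
    D)) U) U)

/-- `600000 vm` -/
def vmE : Ex :=
    Ex.sub (Ex.mul (Ex.mul (Ex.mul (Ex.c 150000) (Ex.v 7)) (Ex.add (Ex.c 1) (Ex.v 7))) (Ex.add
    (Ex.c 1) (Ex.v 7))) (Ex.mul (Ex.mul (Ex.mul (Ex.c 200000) (Ex.v 7)) (Ex.v 7)) (Ex.v 7))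

theorem mjE_val {Y : ℕ → ℝ} {X E D S : Ex} {a e d s : ℝ} (h1 : exVal Y X = 100000 * a)
    (h2 : exVal Y E = e) (h3 : exVal Y D = d) (h4 : exVal Y S = s) :
    exVal Y (mjE X E D S) = 600000 * mj a e d s := by
  simp only [mjE, exadd, exsub, exmul, exc, h1, h2, h3, h4]
  unfold mj
  push_cast
  ring

theorem stE_val {Y : ℕ → ℝ} {C D U : Ex} {c d u : ℝ} (h1 : exVal Y C = 100000 * c)
    (h2 : exVal Y D = d) (h3 : exVal Y U = u) : exVal Y (stE C D U) = 600000 * st c d u := by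
  simp only [stE, exsub, exmul, exc, h1, h2, h3]
  unfold st
  push_cast
  ring

theorem vmE_val (x y z w s u v A B : ℝ) :
    exVal (yv x y z w s u v A B) vmE = 600000 * vm w := by
  simp only [vmE, exadd, exsub, exmul, exc, exv7]
  unfold vm
  push_cast
  ring

theorem fin_of {M : ℤ} (hM : 0 < M) {t : ℝ} (h : 0 ≤ (M : ℝ) * (600000 * t)) : 0 ≤ t := by
  have h1 : (0 : ℝ) < (M : ℝ) := by exact_mod_cast hM
  have h2 := (mul_nonneg_iff_of_pos_left h1).1 h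
  linarith

/-! ### Constraint lists -/

section

variable (D D' : Ex)

def gRI : List Ex :=
    Ex.v 7 :: Ex.sub (Ex.c 13) (Ex.mul (Ex.c 20) (Ex.v 7)) :: Ex.v 19 :: Ex.v 23 :: Ex.sub (Ex.v
    11) (Ex.v 7) :: Ex.sub (Ex.c 1) (Ex.v 11) :: Ex.v 13 :: Ex.sub (Ex.c 1) (Ex.v 13) :: Ex.v 17
    :: Ex.sub (Ex.c 1) (Ex.v 17) :: Ex.sub (Ex.add (Ex.sub (Ex.c 1) (Ex.v 19)) D) (Ex.v 13) ::
    Ex.sub (Ex.add (Ex.sub (Ex.c 1) (Ex.v 23)) D') (Ex.v 17) :: Ex.sub (Ex.sub (Ex.add (Ex.c 1)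
    (Ex.v 7)) (Ex.v 19)) (Ex.v 23) :: Ex.sub (Ex.v 19) (Ex.v 7) :: Ex.sub (Ex.v 23) (Ex.v 7) ::
    Ex.v 11 :: bE

def gRII : List Ex :=
    Ex.v 7 :: Ex.sub (Ex.c 13) (Ex.mul (Ex.c 20) (Ex.v 7)) :: Ex.v 19 :: Ex.v 23 :: Ex.sub (Ex.v
    11) (Ex.v 7) :: Ex.sub (Ex.c 1) (Ex.v 11) :: Ex.v 13 :: Ex.sub (Ex.c 1) (Ex.v 13) :: Ex.v 17
    :: Ex.sub (Ex.c 1) (Ex.v 17) :: Ex.sub (Ex.add (Ex.sub (Ex.c 1) (Ex.v 19)) D) (Ex.v 13) ::
    Ex.sub (Ex.add (Ex.sub (Ex.c 1) (Ex.v 23)) D') (Ex.v 17) :: Ex.sub (Ex.sub (Ex.add (Ex.c 1)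
    (Ex.v 7)) (Ex.v 19)) (Ex.v 23) :: Ex.sub (Ex.v 7) (Ex.v 19) :: Ex.sub (Ex.v 23) (Ex.v 19) ::
    Ex.v 11 :: bE

/-- `D` the height of the other class, `D'` of the class `l` -/
def gYY : List Ex :=
    Ex.v 7 :: Ex.sub (Ex.c 13) (Ex.mul (Ex.c 20) (Ex.v 7)) :: Ex.v 19 :: Ex.sub (Ex.sub (Ex.v 7)
    D') (Ex.v 19) :: Ex.sub (Ex.v 11) (Ex.v 7) :: Ex.sub (Ex.c 1) (Ex.v 11) :: Ex.v 13 :: Ex.sub
    (Ex.c 1) (Ex.v 13) :: Ex.sub (Ex.add (Ex.sub (Ex.c 1) (Ex.v 19)) D) (Ex.v 13) :: Ex.v 11 :: bE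

def gNP : List Ex :=
    Ex.v 11 :: Ex.sub (Ex.c 1) (Ex.v 11) :: Ex.v 13 :: Ex.sub (Ex.c 1) (Ex.v 13) :: Ex.v 17 ::
    Ex.sub (Ex.c 1) (Ex.v 17) :: bE

def gB : List Ex :=
    Ex.v 7 :: Ex.sub (Ex.c 13) (Ex.mul (Ex.c 20) (Ex.v 7)) :: Ex.sub (Ex.v 11) (Ex.v 7) :: Ex.sub
    (Ex.c 1) (Ex.v 11) :: Ex.v 13 :: Ex.sub (Ex.c 1) (Ex.v 13) :: Ex.v 17 :: Ex.sub (Ex.c 1) (Ex.v
    17) :: Ex.v 11 :: bE

def gBxI : List Ex :=
    Ex.v 7 :: Ex.sub (Ex.c 13) (Ex.mul (Ex.c 20) (Ex.v 7)) :: Ex.v 19 :: Ex.sub (Ex.add (Ex.c 1)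
    (Ex.v 7)) (Ex.v 19) :: Ex.sub (Ex.v 11) (Ex.v 7) :: Ex.sub (Ex.c 1) (Ex.v 11) :: Ex.v 13 ::
    Ex.sub (Ex.c 1) (Ex.v 13) :: Ex.v 17 :: Ex.sub (Ex.c 1) (Ex.v 17) :: Ex.sub (Ex.add (Ex.sub
    (Ex.c 1) (Ex.v 19)) D) (Ex.v 13) :: Ex.sub (Ex.v 19) (Ex.v 7) :: Ex.sub (Ex.c 1) (Ex.v 19) ::
    Ex.v 11 :: bE

def gBxII : List Ex :=
    Ex.v 7 :: Ex.sub (Ex.c 13) (Ex.mul (Ex.c 20) (Ex.v 7)) :: Ex.v 19 :: Ex.sub (Ex.add (Ex.c 1)
    (Ex.v 7)) (Ex.v 19) :: Ex.sub (Ex.v 11) (Ex.v 7) :: Ex.sub (Ex.c 1) (Ex.v 11) :: Ex.v 13 ::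
    Ex.sub (Ex.c 1) (Ex.v 13) :: Ex.v 17 :: Ex.sub (Ex.c 1) (Ex.v 17) :: Ex.sub (Ex.add (Ex.sub
    (Ex.c 1) (Ex.v 19)) D) (Ex.v 13) :: Ex.sub (Ex.v 7) (Ex.v 19) :: Ex.v 11 :: bE

def gBxV : List Ex :=
    Ex.v 7 :: Ex.sub (Ex.c 13) (Ex.mul (Ex.c 20) (Ex.v 7)) :: Ex.v 19 :: Ex.sub (Ex.add (Ex.c 1)
    (Ex.v 7)) (Ex.v 19) :: Ex.sub (Ex.v 11) (Ex.v 7) :: Ex.sub (Ex.c 1) (Ex.v 11) :: Ex.v 13 ::
    Ex.sub (Ex.c 1) (Ex.v 13) :: Ex.v 17 :: Ex.sub (Ex.c 1) (Ex.v 17) :: Ex.sub (Ex.add (Ex.sub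
    (Ex.c 1) (Ex.v 19)) D) (Ex.v 13) :: Ex.sub (Ex.v 19) (Ex.c 1) :: Ex.v 11 :: bE

def gBz : List Ex :=
    Ex.v 7 :: Ex.sub (Ex.c 13) (Ex.mul (Ex.c 20) (Ex.v 7)) :: Ex.sub (Ex.v 11) (Ex.v 7) :: Ex.sub
    (Ex.c 1) (Ex.v 11) :: Ex.v 13 :: Ex.sub (Ex.c 1) (Ex.v 13) :: Ex.v 11 :: bE

/-- `D` the height of the far class, `D'` of the third class -/
def gLA1 : List Ex :=
    Ex.v 7 :: Ex.sub (Ex.c 13) (Ex.mul (Ex.c 20) (Ex.v 7)) :: Ex.sub (Ex.v 11) (Ex.v 7) :: Ex.sub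
    (Ex.sub (Ex.add (Ex.c 1) D) (Ex.v 2)) (Ex.v 11) :: Ex.v 13 :: Ex.sub (Ex.c 1) (Ex.v 13) ::
    Ex.sub (Ex.add (Ex.sub (Ex.c 1) (Ex.v 23)) D') (Ex.v 13) :: Ex.sub (Ex.v 23) (Ex.v 7) ::
    Ex.sub (Ex.c 1) (Ex.v 23) :: Ex.v 23 :: Ex.v 11 :: bE

def gLA2 : List Ex :=
    Ex.v 7 :: Ex.sub (Ex.c 13) (Ex.mul (Ex.c 20) (Ex.v 7)) :: Ex.sub (Ex.v 11) (Ex.v 7) :: Ex.sub
    (Ex.sub (Ex.add (Ex.c 1) D) (Ex.v 2)) (Ex.v 11) :: Ex.v 13 :: Ex.sub (Ex.c 1) (Ex.v 13) ::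
    Ex.sub (Ex.add (Ex.sub (Ex.c 1) (Ex.v 23)) D') (Ex.v 13) :: Ex.v 23 :: Ex.sub (Ex.v 7) (Ex.v
    23) :: Ex.v 11 :: bE

def gLB : List Ex :=
    Ex.v 7 :: Ex.sub (Ex.c 13) (Ex.mul (Ex.c 20) (Ex.v 7)) :: Ex.sub (Ex.v 11) (Ex.v 7) :: Ex.sub
    (Ex.sub (Ex.add (Ex.c 1) D) (Ex.v 2)) (Ex.v 11) :: Ex.v 13 :: Ex.sub (Ex.c 1) (Ex.v 13) ::
    Ex.v 11 :: bE

def gLC : List Ex :=
    Ex.v 7 :: Ex.sub (Ex.c 13) (Ex.mul (Ex.c 20) (Ex.v 7)) :: Ex.sub (Ex.v 11) (Ex.v 7) :: Ex.sub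
    (Ex.sub (Ex.add (Ex.c 1) D) (Ex.v 2)) (Ex.v 11) :: Ex.sub (Ex.v 13) (Ex.v 7) :: Ex.sub (Ex.sub
    (Ex.add (Ex.c 1) D) D') (Ex.v 13) :: Ex.v 13 :: Ex.v 11 :: bE

end

/-! ### Polynomials: `600000 (W - value)` -/

section

variable (X D C D' C' W K : Ex)

/-- the slot of the lowest class -/
def loE : Ex :=
    mjE X (Ex.sub (Ex.c 1) (Ex.v 2)) (Ex.v 2) (Ex.v 11)

def pRI : Ex :=
    Ex.sub (Ex.mul (Ex.c 6) W) (Ex.sub (Ex.add (Ex.add (Ex.add (loE X) (stE C D (Ex.v 13))) (stE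
    C' D' (Ex.v 17))) (Ex.mul (Ex.mul (Ex.mul (Ex.c 600000) (Ex.v 7)) (Ex.v 19)) (Ex.v 23)))
    (Ex.mul (Ex.mul (Ex.mul (Ex.c 200000) (Ex.v 7)) (Ex.v 7)) (Ex.v 7)))

def pRII : Ex :=
    Ex.sub (Ex.mul (Ex.c 6) W) (Ex.sub (Ex.add (Ex.add (Ex.add (loE X) (stE C D (Ex.v 13))) (stE
    C' D' (Ex.v 17))) (Ex.mul (Ex.mul (Ex.mul (Ex.c 600000) (Ex.v 7)) (Ex.v 19)) (Ex.v 23)))
    (Ex.mul (Ex.mul (Ex.mul (Ex.c 200000) (Ex.v 7)) (Ex.v 7)) (Ex.v 19)))

def pYY : Ex :=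
    Ex.sub (Ex.mul (Ex.c 6) W) (Ex.sub (Ex.add (Ex.sub (Ex.add (loE X) (stE C D (Ex.v 13)))
    (Ex.mul (Ex.mul (Ex.c 6) C') (Ex.sub (Ex.sub (Ex.v 7) D') (Ex.v 19)))) (Ex.mul (Ex.mul (Ex.mul
    (Ex.c 600000) (Ex.v 7)) (Ex.v 19)) (Ex.sub (Ex.add (Ex.c 1) (Ex.v 7)) (Ex.v 19)))) (Ex.mul
    (Ex.mul (Ex.mul (Ex.c 200000) (Ex.v 7)) (Ex.v 7)) (Ex.v 19)))

def pNP : Ex :=
    Ex.sub (Ex.mul (Ex.c 6) W) (Ex.add (Ex.add (stE X (Ex.v 2) (Ex.v 11)) (stE C D (Ex.v 13)))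
    (stE C' D' (Ex.v 17)))

def pBc : Ex :=
    Ex.sub (Ex.mul (Ex.c 6) W) (Ex.add (Ex.sub (Ex.add (Ex.add (loE X) (stE C D (Ex.v 13))) (stE
    C' D' (Ex.v 17))) (Ex.mul (Ex.mul (Ex.c 6) K) (Ex.add (Ex.v 17) (Ex.v 7)))) vmE)

def pBxI : Ex :=
    Ex.sub (Ex.mul (Ex.c 6) W) (Ex.sub (Ex.add (Ex.sub (Ex.add (Ex.add (loE X) (stE C D (Ex.v
    13))) (stE C' D' (Ex.v 17))) (Ex.mul (Ex.mul (Ex.c 6) K) (Ex.add (Ex.v 17) (Ex.v 7)))) (Ex.mul
    (Ex.mul (Ex.mul (Ex.c 600000) (Ex.v 7)) (Ex.v 19)) (Ex.sub (Ex.add (Ex.c 1) (Ex.v 7)) (Ex.v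
    19)))) (Ex.mul (Ex.mul (Ex.mul (Ex.c 200000) (Ex.v 7)) (Ex.v 7)) (Ex.v 7)))

def pBxII : Ex :=
    Ex.sub (Ex.mul (Ex.c 6) W) (Ex.sub (Ex.add (Ex.sub (Ex.add (Ex.add (loE X) (stE C D (Ex.v
    13))) (stE C' D' (Ex.v 17))) (Ex.mul (Ex.mul (Ex.c 6) K) (Ex.add (Ex.v 17) (Ex.v 7)))) (Ex.mul
    (Ex.mul (Ex.mul (Ex.c 600000) (Ex.v 7)) (Ex.v 19)) (Ex.sub (Ex.add (Ex.c 1) (Ex.v 7)) (Ex.v
    19)))) (Ex.mul (Ex.mul (Ex.mul (Ex.c 200000) (Ex.v 7)) (Ex.v 7)) (Ex.v 19)))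

def pBxV : Ex :=
    Ex.sub (Ex.mul (Ex.c 6) W) (Ex.sub (Ex.add (Ex.sub (Ex.add (Ex.add (loE X) (stE C D (Ex.v
    13))) (stE C' D' (Ex.v 17))) (Ex.mul (Ex.mul (Ex.c 6) K) (Ex.add (Ex.v 17) (Ex.v 7)))) (Ex.mul
    (Ex.mul (Ex.mul (Ex.c 600000) (Ex.v 7)) (Ex.v 19)) (Ex.sub (Ex.add (Ex.c 1) (Ex.v 7)) (Ex.v
    19)))) (Ex.mul (Ex.mul (Ex.mul (Ex.c 200000) (Ex.v 7)) (Ex.v 7)) (Ex.sub (Ex.add (Ex.c 1)
    (Ex.v 7)) (Ex.v 19))))

def pBz : Ex :=
    Ex.sub (Ex.mul (Ex.c 6) W) (Ex.add (Ex.sub (Ex.add (loE X) (stE C' D' (Ex.v 13))) (Ex.mul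
    (Ex.mul (Ex.c 6) K) (Ex.add (Ex.v 13) (Ex.v 7)))) vmE)

def pBB (K' : Ex) : Ex :=
    Ex.sub (Ex.mul (Ex.c 6) W) (Ex.add (Ex.sub (Ex.sub (Ex.add (Ex.add (loE X) (stE C D (Ex.v
    13))) (stE C' D' (Ex.v 17))) (Ex.mul (Ex.mul (Ex.c 6) K) (Ex.add (Ex.v 13) (Ex.v 7)))) (Ex.mul
    (Ex.mul (Ex.c 6) K') (Ex.add (Ex.v 17) (Ex.v 7)))) vmE)

/-- the slots of the lowest and of the far class -/
def hiE : Ex :=
    Ex.add (mjE X (Ex.sub (Ex.c 1) (Ex.v 2)) D (Ex.v 11)) (mjE C (Ex.sub (Ex.c 1) D) D (Ex.v 7))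

def pLA1 : Ex :=
    Ex.sub (Ex.mul (Ex.c 6) W) (Ex.sub (Ex.add (Ex.add (hiE X D C) (stE C' D' (Ex.v 13))) (Ex.mul
    (Ex.mul (Ex.mul (Ex.c 600000) (Ex.v 7)) (Ex.sub (Ex.add (Ex.c 1) (Ex.v 7)) (Ex.v 23))) (Ex.v
    23))) (Ex.mul (Ex.mul (Ex.mul (Ex.c 200000) (Ex.v 7)) (Ex.v 7)) (Ex.v 7)))

def pLA2 : Ex :=
    Ex.sub (Ex.mul (Ex.c 6) W) (Ex.sub (Ex.add (Ex.add (hiE X D C) (stE C' D' (Ex.v 13))) (Ex.mul
    (Ex.mul (Ex.mul (Ex.c 600000) (Ex.v 7)) (Ex.sub (Ex.add (Ex.c 1) (Ex.v 7)) (Ex.v 23))) (Ex.v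
    23))) (Ex.mul (Ex.mul (Ex.mul (Ex.c 200000) (Ex.v 7)) (Ex.v 7)) (Ex.v 23)))

def pLB : Ex :=
    Ex.sub (Ex.mul (Ex.c 6) W) (Ex.add (Ex.sub (Ex.add (hiE X D C) (stE C' D' (Ex.v 13))) (Ex.mul
    (Ex.mul (Ex.c 6) K) (Ex.add (Ex.v 13) (Ex.v 7)))) vmE)

def pLC : Ex :=
    Ex.sub (Ex.mul (Ex.c 6) W) (Ex.add (Ex.add (hiE X D C) (mjE C' (Ex.sub (Ex.c 1) D') D (Ex.v
    13))) vmE)

end

/-! ### The inequalities -/

section

variable {x y z X d c d' c' W K K' : ℝ} {Xe D C D' C' We Ke Ke' : Ex} {M : ℤ} {e : NN}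

theorem loE_val {w s u v A B : ℝ} (hX : Dt x y z Xe (100000 * X)) :
    exVal (yv x y z w s u v A B) (loE Xe) = 600000 * mj X (1 - x) x s :=
  mjE_val (hX.h ..) (by rw [exsub, exc, exv2]; push_cast; ring) (exv2 ..) (exv11 ..)

theorem hiE_val {w s u v A B : ℝ} (hX : Dt x y z Xe (100000 * X)) (hD : Dt x y z D d)
    (hC : Dt x y z C (100000 * c)) :
    exVal (yv x y z w s u v A B) (hiE Xe D C) =
      600000 * (mj X (1 - x) d s + mj c (1 - d) d w) := by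
  rw [hiE, exadd, mjE_val (hX.h ..) (by rw [exsub, exc, exv2]; push_cast; ring : _ = 1 - x)
    (hD.h ..) (exv11 ..), mjE_val (hC.h ..)
    (by rw [exsub, exc, hD.h ..]; push_cast; ring : _ = 1 - d) (hD.h ..) (exv7 ..)]
  ring

theorem rI_of (hb : Bd x y z) (hX : Dt x y z Xe (100000 * X)) (hD : Dt x y z D d) (hC : Dt x y z C (100000 * c)) (hD' : Dt x y z D' d') (hC' : Dt x y z C' (100000 * c'))
    (hW : Dt x y z We (100000 * W)) (hM : 0 < M)
    (h : check ((gRI D D').map exPol) (exPol (Ex.mul (Ex.c M) (pRI Xe D C D' C' We))) e = true) :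
    RI X x c d c' d' W := by
  intro w A B s u v h1 h2 h3 h4 h5 h6 h7 h8 h9 h10 h11 h12 h13 h14 h15
  have k := cert (y := yv x y z w s u v A B) h
    (yv_nonneg hb.x0 hb.y0 hb.z0 h1 (h1.trans h5) h7 h9 h3 h4)
    (by
      simp only [gRI, List.forall_mem_cons, exadd, exsub, exmul, exc, exv2, exv7, exv11, exv13,
        exv17, exv19, exv23, hD.h, hD'.h]
      push_cast
      exact ⟨h1, by linarith, h3, h4, by linarith, by linarith, h7, by linarith, h9, by linarith, by linarith, by linarith, by linarith, by linarith, by linarith, h1.trans h5,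
        bE_nn hb w s u v A B⟩)
  rw [exmul, exc, pRI] at k
  simp only [exadd, exsub, exmul, exc, exv2, exv7, exv11, exv13, exv17, exv19, exv23,
    loE_val hX, stE_val (hC.h ..) (hD.h ..) (exv13 ..), stE_val (hC'.h ..) (hD'.h ..) (exv17 ..), hW.h] at k
  push_cast at k
  have k2 := fin_of hM (t := W - (mj X (1 - x) x s + st c d u + st c' d' v + w * A * B - w ^ 3 / 3))
    (by refine k.trans_eq ?_; ring)
  linarith

theorem rII_of (hb : Bd x y z) (hX : Dt x y z Xe (100000 * X)) (hD : Dt x y z D d) (hC : Dt x y z C (100000 * c)) (hD' : Dt x y z D' d') (hC' : Dt x y z C' (100000 * c'))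
    (hW : Dt x y z We (100000 * W)) (hM : 0 < M)
    (h : check ((gRII D D').map exPol) (exPol (Ex.mul (Ex.c M) (pRII Xe D C D' C' We))) e = true) :
    RII X x c d c' d' W := by
  intro w A B s u v h1 h2 h3 h4 h5 h6 h7 h8 h9 h10 h11 h12 h13 h14 h15
  have k := cert (y := yv x y z w s u v A B) h
    (yv_nonneg hb.x0 hb.y0 hb.z0 h1 (h1.trans h5) h7 h9 h3 h4)
    (by
      simp only [gRII, List.forall_mem_cons, exadd, exsub, exmul, exc, exv2, exv7, exv11, exv13,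
        exv17, exv19, exv23, hD.h, hD'.h]
      push_cast
      exact ⟨h1, by linarith, h3, h4, by linarith, by linarith, h7, by linarith, h9, by linarith, by linarith, by linarith, by linarith, by linarith, by linarith, h1.trans h5,
        bE_nn hb w s u v A B⟩)
  rw [exmul, exc, pRII] at k
  simp only [exadd, exsub, exmul, exc, exv2, exv7, exv11, exv13, exv17, exv19, exv23,
    loE_val hX, stE_val (hC.h ..) (hD.h ..) (exv13 ..), stE_val (hC'.h ..) (hD'.h ..) (exv17 ..), hW.h] at k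
  push_cast at k
  have k2 := fin_of hM (t := W - (mj X (1 - x) x s + st c d u + st c' d' v + w * A * B - w ^ 2 * A / 3))
    (by refine k.trans_eq ?_; ring)
  linarith

/-- `d` the height of the other class, `d'` of the class `l` -/
theorem yY_of (hb : Bd x y z) (hX : Dt x y z Xe (100000 * X)) (hD : Dt x y z D d) (hC : Dt x y z C (100000 * c)) (hD' : Dt x y z D' d') (hC' : Dt x y z C' (100000 * c'))
    (hW : Dt x y z We (100000 * W)) (hM : 0 < M)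
    (h : check ((gYY D D').map exPol) (exPol (Ex.mul (Ex.c M) (pYY Xe D C D' C' We))) e = true) :
    YY X x c d c' d' W := by
  intro w A s u h1 h2 h3 h4 h5 h6 h7 h8 h9
  have k := cert (y := yv x y z w s u 0 A 0) h
    (yv_nonneg hb.x0 hb.y0 hb.z0 h1 (h1.trans h5) h7 (le_refl 0) h3 (le_refl 0))
    (by
      simp only [gYY, List.forall_mem_cons, exadd, exsub, exmul, exc, exv2, exv7, exv11, exv13,
        exv17, exv19, exv23, hD.h, hD'.h]
      push_cast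
      exact ⟨h1, by linarith, h3, by linarith, by linarith, by linarith, h7, by linarith, by linarith, h1.trans h5,
        bE_nn hb w s u 0 A 0⟩)
  rw [exmul, exc, pYY] at k
  simp only [exadd, exsub, exmul, exc, exv2, exv7, exv11, exv13, exv17, exv19, exv23,
    loE_val hX, stE_val (hC.h ..) (hD.h ..) (exv13 ..), hC'.h, hD'.h, hW.h] at k
  push_cast at k
  have k2 := fin_of hM (t := W - (mj X (1 - x) x s + st c d u - c' * (w - d' - A) + w * A * (1 + w - A)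
    - w ^ 2 * A / 3))
    (by refine k.trans_eq ?_; ring)
  linarith

theorem nP_of (hb : Bd x y z) (hX : Dt x y z Xe (100000 * X)) (hD : Dt x y z D d) (hC : Dt x y z C (100000 * c)) (hD' : Dt x y z D' d') (hC' : Dt x y z C' (100000 * c'))
    (hW : Dt x y z We (100000 * W)) (hM : 0 < M)
    (h : check ((gNP).map exPol) (exPol (Ex.mul (Ex.c M) (pNP Xe D C D' C' We))) e = true) :
    NP X x c d c' d' W := by
  intro s u v h1 h2 h3 h4 h5 h6
  have k := cert (y := yv x y z 0 s u v 0 0) h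
    (yv_nonneg hb.x0 hb.y0 hb.z0 (le_refl 0) h1 h3 h5 (le_refl 0) (le_refl 0))
    (by
      simp only [gNP, List.forall_mem_cons, exadd, exsub, exmul, exc, exv2, exv7, exv11, exv13,
        exv17, exv19, exv23]
      push_cast
      exact ⟨h1, by linarith, h3, by linarith, h5, by linarith,
        bE_nn hb 0 s u v 0 0⟩)
  rw [exmul, exc, pNP] at k
  simp only [exadd, exsub, exmul, exc, exv2, exv7, exv11, exv13, exv17, exv19, exv23,
    stE_val (hX.h ..) (exv2 ..) (exv11 ..), stE_val (hC.h ..) (hD.h ..) (exv13 ..), stE_val (hC'.h ..) (hD'.h ..) (exv17 ..), hW.h] at k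
  push_cast at k
  have k2 := fin_of hM (t := W - (st X x s + st c d u + st c' d' v))
    (by refine k.trans_eq ?_; ring)
  linarith

theorem bc_of (hb : Bd x y z) (hX : Dt x y z Xe (100000 * X)) (hD : Dt x y z D d) (hC : Dt x y z C (100000 * c)) (hD' : Dt x y z D' d') (hC' : Dt x y z C' (100000 * c')) (hK : Dt x y z Ke (100000 * K))
    (hW : Dt x y z We (100000 * W)) (hM : 0 < M)
    (h : check ((gB).map exPol) (exPol (Ex.mul (Ex.c M) (pBc Xe D C D' C' We Ke))) e = true) :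
    Bc X x c d c' d' K W := by
  intro w s u v h1 h2 h3 h4 h5 h6 h7 h8
  have k := cert (y := yv x y z w s u v 0 0) h
    (yv_nonneg hb.x0 hb.y0 hb.z0 h1 (h1.trans h3) h5 h7 (le_refl 0) (le_refl 0))
    (by
      simp only [gB, List.forall_mem_cons, exadd, exsub, exmul, exc, exv2, exv7, exv11, exv13,
        exv17, exv19, exv23]
      push_cast
      exact ⟨h1, by linarith, by linarith, by linarith, h5, by linarith, h7, by linarith, h1.trans h3,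
        bE_nn hb w s u v 0 0⟩)
  rw [exmul, exc, pBc] at k
  simp only [exadd, exsub, exmul, exc, exv2, exv7, exv11, exv13, exv17, exv19, exv23,
    loE_val hX, stE_val (hC.h ..) (hD.h ..) (exv13 ..), stE_val (hC'.h ..) (hD'.h ..) (exv17 ..), vmE_val, hK.h, hW.h] at k
  push_cast at k
  have k2 := fin_of hM (t := W - (mj X (1 - x) x s + st c d u + st c' d' v - K * (v + w) + vm w))
    (by refine k.trans_eq ?_; ring)
  linarith

theorem bB_of (hb : Bd x y z) (hX : Dt x y z Xe (100000 * X)) (hD : Dt x y z D d) (hC : Dt x y z C (100000 * c)) (hD' : Dt x y z D' d') (hC' : Dt x y z C' (100000 * c')) (hK : Dt x y z Ke (100000 * K)) (hK' : Dt x y z Ke' (100000 * K'))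
    (hW : Dt x y z We (100000 * W)) (hM : 0 < M)
    (h : check ((gB).map exPol) (exPol (Ex.mul (Ex.c M) (pBB Xe D C D' C' We Ke Ke'))) e = true) :
    BB X x c d c' d' K K' W := by
  intro w s u v h1 h2 h3 h4 h5 h6 h7 h8
  have k := cert (y := yv x y z w s u v 0 0) h
    (yv_nonneg hb.x0 hb.y0 hb.z0 h1 (h1.trans h3) h5 h7 (le_refl 0) (le_refl 0))
    (by
      simp only [gB, List.forall_mem_cons, exadd, exsub, exmul, exc, exv2, exv7, exv11, exv13,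
        exv17, exv19, exv23]
      push_cast
      exact ⟨h1, by linarith, by linarith, by linarith, h5, by linarith, h7, by linarith, h1.trans h3,
        bE_nn hb w s u v 0 0⟩)
  rw [exmul, exc, pBB] at k
  simp only [exadd, exsub, exmul, exc, exv2, exv7, exv11, exv13, exv17, exv19, exv23,
    loE_val hX, stE_val (hC.h ..) (hD.h ..) (exv13 ..), stE_val (hC'.h ..) (hD'.h ..) (exv17 ..), vmE_val, hK.h, hK'.h, hW.h] at k
  push_cast at k
  have k2 := fin_of hM (t := W - (mj X (1 - x) x s + st c d u + st c' d' v - K * (u + w) - K' * (v + w)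
    + vm w))
    (by refine k.trans_eq ?_; ring)
  linarith

theorem bxI_of (hb : Bd x y z) (hX : Dt x y z Xe (100000 * X)) (hD : Dt x y z D d) (hC : Dt x y z C (100000 * c)) (hD' : Dt x y z D' d') (hC' : Dt x y z C' (100000 * c')) (hK : Dt x y z Ke (100000 * K))
    (hW : Dt x y z We (100000 * W)) (hM : 0 < M)
    (h : check ((gBxI D).map exPol) (exPol (Ex.mul (Ex.c M) (pBxI Xe D C D' C' We Ke))) e = true) :
    BxI X x c d c' d' K W := by
  intro w A s u v h1 h2 h3 h4 h5 h6 h7 h8 h9 h10 h11 h12 h13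
  have k := cert (y := yv x y z w s u v A 0) h
    (yv_nonneg hb.x0 hb.y0 hb.z0 h1 (h1.trans h5) h7 h9 h3 (le_refl 0))
    (by
      simp only [gBxI, List.forall_mem_cons, exadd, exsub, exmul, exc, exv2, exv7, exv11, exv13,
        exv17, exv19, exv23, hD.h]
      push_cast
      exact ⟨h1, by linarith, h3, by linarith, by linarith, by linarith, h7, by linarith, h9, by linarith, by linarith, by linarith, by linarith, h1.trans h5,
        bE_nn hb w s u v A 0⟩)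
  rw [exmul, exc, pBxI] at k
  simp only [exadd, exsub, exmul, exc, exv2, exv7, exv11, exv13, exv17, exv19, exv23,
    loE_val hX, stE_val (hC.h ..) (hD.h ..) (exv13 ..), stE_val (hC'.h ..) (hD'.h ..) (exv17 ..), hK.h, hW.h] at k
  push_cast at k
  have k2 := fin_of hM (t := W - (mj X (1 - x) x s + st c d u + st c' d' v - K * (v + w)
    + w * A * (1 + w - A) - w ^ 3 / 3))
    (by refine k.trans_eq ?_; ring)
  linarith

theorem bxII_of (hb : Bd x y z) (hX : Dt x y z Xe (100000 * X)) (hD : Dt x y z D d) (hC : Dt x y z C (100000 * c)) (hD' : Dt x y z D' d') (hC' : Dt x y z C' (100000 * c')) (hK : Dt x y z Ke (100000 * K))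
    (hW : Dt x y z We (100000 * W)) (hM : 0 < M)
    (h : check ((gBxII D).map exPol) (exPol (Ex.mul (Ex.c M) (pBxII Xe D C D' C' We Ke))) e = true) :
    BxII X x c d c' d' K W := by
  intro w A s u v h1 h2 h3 h4 h5 h6 h7 h8 h9 h10 h11 h12
  have k := cert (y := yv x y z w s u v A 0) h
    (yv_nonneg hb.x0 hb.y0 hb.z0 h1 (h1.trans h5) h7 h9 h3 (le_refl 0))
    (by
      simp only [gBxII, List.forall_mem_cons, exadd, exsub, exmul, exc, exv2, exv7, exv11, exv13,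
        exv17, exv19, exv23, hD.h]
      push_cast
      exact ⟨h1, by linarith, h3, by linarith, by linarith, by linarith, h7, by linarith, h9, by linarith, by linarith, by linarith, h1.trans h5,
        bE_nn hb w s u v A 0⟩)
  rw [exmul, exc, pBxII] at k
  simp only [exadd, exsub, exmul, exc, exv2, exv7, exv11, exv13, exv17, exv19, exv23,
    loE_val hX, stE_val (hC.h ..) (hD.h ..) (exv13 ..), stE_val (hC'.h ..) (hD'.h ..) (exv17 ..), hK.h, hW.h] at k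
  push_cast at k
  have k2 := fin_of hM (t := W - (mj X (1 - x) x s + st c d u + st c' d' v - K * (v + w)
    + w * A * (1 + w - A) - w ^ 2 * A / 3))
    (by refine k.trans_eq ?_; ring)
  linarith

theorem bxV_of (hb : Bd x y z) (hX : Dt x y z Xe (100000 * X)) (hD : Dt x y z D d) (hC : Dt x y z C (100000 * c)) (hD' : Dt x y z D' d') (hC' : Dt x y z C' (100000 * c')) (hK : Dt x y z Ke (100000 * K))
    (hW : Dt x y z We (100000 * W)) (hM : 0 < M)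
    (h : check ((gBxV D).map exPol) (exPol (Ex.mul (Ex.c M) (pBxV Xe D C D' C' We Ke))) e = true) :
    BxV X x c d c' d' K W := by
  intro w A s u v h1 h2 h3 h4 h5 h6 h7 h8 h9 h10 h11 h12
  have k := cert (y := yv x y z w s u v A 0) h
    (yv_nonneg hb.x0 hb.y0 hb.z0 h1 (h1.trans h5) h7 h9 h3 (le_refl 0))
    (by
      simp only [gBxV, List.forall_mem_cons, exadd, exsub, exmul, exc, exv2, exv7, exv11, exv13,
        exv17, exv19, exv23, hD.h]
      push_cast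
      exact ⟨h1, by linarith, h3, by linarith, by linarith, by linarith, h7, by linarith, h9, by linarith, by linarith, by linarith, h1.trans h5,
        bE_nn hb w s u v A 0⟩)
  rw [exmul, exc, pBxV] at k
  simp only [exadd, exsub, exmul, exc, exv2, exv7, exv11, exv13, exv17, exv19, exv23,
    loE_val hX, stE_val (hC.h ..) (hD.h ..) (exv13 ..), stE_val (hC'.h ..) (hD'.h ..) (exv17 ..), hK.h, hW.h] at k
  push_cast at k
  have k2 := fin_of hM (t := W - (mj X (1 - x) x s + st c d u + st c' d' v - K * (v + w)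
    + w * A * (1 + w - A) - w ^ 2 * (1 + w - A) / 3))
    (by refine k.trans_eq ?_; ring)
  linarith

theorem bz_of (hb : Bd x y z) (hX : Dt x y z Xe (100000 * X)) (hD' : Dt x y z D' d') (hC' : Dt x y z C' (100000 * c')) (hK : Dt x y z Ke (100000 * K))
    (hW : Dt x y z We (100000 * W)) (hM : 0 < M)
    (h : check ((gBz).map exPol) (exPol (Ex.mul (Ex.c M) (pBz Xe D' C' We Ke))) e = true) :
    Bz X x c' d' K W := by
  intro w s u h1 h2 h3 h4 h5 h6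
  have k := cert (y := yv x y z w s u 0 0 0) h
    (yv_nonneg hb.x0 hb.y0 hb.z0 h1 (h1.trans h3) h5 (le_refl 0) (le_refl 0) (le_refl 0))
    (by
      simp only [gBz, List.forall_mem_cons, exadd, exsub, exmul, exc, exv2, exv7, exv11, exv13,
        exv17, exv19, exv23]
      push_cast
      exact ⟨h1, by linarith, by linarith, by linarith, h5, by linarith, h1.trans h3,
        bE_nn hb w s u 0 0 0⟩)
  rw [exmul, exc, pBz] at k
  simp only [exadd, exsub, exmul, exc, exv2, exv7, exv11, exv13, exv17, exv19, exv23,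
    loE_val hX, stE_val (hC'.h ..) (hD'.h ..) (exv13 ..), vmE_val, hK.h, hW.h] at k
  push_cast at k
  have k2 := fin_of hM (t := W - (mj X (1 - x) x s + st c' d' u - K * (u + w) + vm w))
    (by refine k.trans_eq ?_; ring)
  linarith

theorem lA1_of (hb : Bd x y z) (hX : Dt x y z Xe (100000 * X)) (hD : Dt x y z D d) (hC : Dt x y z C (100000 * c)) (hD' : Dt x y z D' d') (hC' : Dt x y z C' (100000 * c'))
    (hW : Dt x y z We (100000 * W)) (hM : 0 < M)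
    (h : check ((gLA1 D D').map exPol) (exPol (Ex.mul (Ex.c M) (pLA1 Xe D C D' C' We))) e = true) :
    LA1 X x c d c' d' W := by
  intro w B s u h1 h2 h3 h4 h5 h6 h7 h8 h9
  have k := cert (y := yv x y z w s u 0 0 B) h
    (yv_nonneg hb.x0 hb.y0 hb.z0 h1 (h1.trans h3) h5 (le_refl 0) (le_refl 0) (h1.trans h8))
    (by
      simp only [gLA1, List.forall_mem_cons, exadd, exsub, exmul, exc, exv2, exv7, exv11, exv13,
        exv17, exv19, exv23, hD.h, hD'.h]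
      push_cast
      exact ⟨h1, by linarith, by linarith, by linarith, h5, by linarith, by linarith, by linarith, by linarith, h1.trans h8, h1.trans h3,
        bE_nn hb w s u 0 0 B⟩)
  rw [exmul, exc, pLA1] at k
  simp only [exadd, exsub, exmul, exc, exv2, exv7, exv11, exv13, exv17, exv19, exv23,
    hiE_val hX hD hC, stE_val (hC'.h ..) (hD'.h ..) (exv13 ..), hW.h] at k
  push_cast at k
  have k2 := fin_of hM (t := W - (mj X (1 - x) d s + mj c (1 - d) d w + st c' d' u + w * (1 + w - B) * B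
    - w ^ 3 / 3))
    (by refine k.trans_eq ?_; ring)
  linarith

theorem lA2_of (hb : Bd x y z) (hX : Dt x y z Xe (100000 * X)) (hD : Dt x y z D d) (hC : Dt x y z C (100000 * c)) (hD' : Dt x y z D' d') (hC' : Dt x y z C' (100000 * c'))
    (hW : Dt x y z We (100000 * W)) (hM : 0 < M)
    (h : check ((gLA2 D D').map exPol) (exPol (Ex.mul (Ex.c M) (pLA2 Xe D C D' C' We))) e = true) :
    LA2 X x c d c' d' W := by
  intro w B s u h1 h2 h3 h4 h5 h6 h7 h8 h9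
  have k := cert (y := yv x y z w s u 0 0 B) h
    (yv_nonneg hb.x0 hb.y0 hb.z0 h1 (h1.trans h3) h5 (le_refl 0) (le_refl 0) h8)
    (by
      simp only [gLA2, List.forall_mem_cons, exadd, exsub, exmul, exc, exv2, exv7, exv11, exv13,
        exv17, exv19, exv23, hD.h, hD'.h]
      push_cast
      exact ⟨h1, by linarith, by linarith, by linarith, h5, by linarith, by linarith, h8, by linarith, h1.trans h3,
        bE_nn hb w s u 0 0 B⟩)
  rw [exmul, exc, pLA2] at k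
  simp only [exadd, exsub, exmul, exc, exv2, exv7, exv11, exv13, exv17, exv19, exv23,
    hiE_val hX hD hC, stE_val (hC'.h ..) (hD'.h ..) (exv13 ..), hW.h] at k
  push_cast at k
  have k2 := fin_of hM (t := W - (mj X (1 - x) d s + mj c (1 - d) d w + st c' d' u + w * (1 + w - B) * B
    - w ^ 2 * B / 3))
    (by refine k.trans_eq ?_; ring)
  linarith

theorem lB_of (hb : Bd x y z) (hX : Dt x y z Xe (100000 * X)) (hD : Dt x y z D d) (hC : Dt x y z C (100000 * c)) (hD' : Dt x y z D' d') (hC' : Dt x y z C' (100000 * c')) (hK : Dt x y z Ke (100000 * K))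
    (hW : Dt x y z We (100000 * W)) (hM : 0 < M)
    (h : check ((gLB D).map exPol) (exPol (Ex.mul (Ex.c M) (pLB Xe D C D' C' We Ke))) e = true) :
    LB X x c d c' d' K W := by
  intro w s u h1 h2 h3 h4 h5 h6
  have k := cert (y := yv x y z w s u 0 0 0) h
    (yv_nonneg hb.x0 hb.y0 hb.z0 h1 (h1.trans h3) h5 (le_refl 0) (le_refl 0) (le_refl 0))
    (by
      simp only [gLB, List.forall_mem_cons, exadd, exsub, exmul, exc, exv2, exv7, exv11, exv13,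
        exv17, exv19, exv23, hD.h]
      push_cast
      exact ⟨h1, by linarith, by linarith, by linarith, h5, by linarith, h1.trans h3,
        bE_nn hb w s u 0 0 0⟩)
  rw [exmul, exc, pLB] at k
  simp only [exadd, exsub, exmul, exc, exv2, exv7, exv11, exv13, exv17, exv19, exv23,
    hiE_val hX hD hC, stE_val (hC'.h ..) (hD'.h ..) (exv13 ..), vmE_val, hK.h, hW.h] at k
  push_cast at k
  have k2 := fin_of hM (t := W - (mj X (1 - x) d s + mj c (1 - d) d w + st c' d' u - K * (u + w) + vm w))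
    (by refine k.trans_eq ?_; ring)
  linarith

theorem lC_of (hb : Bd x y z) (hX : Dt x y z Xe (100000 * X)) (hD : Dt x y z D d) (hC : Dt x y z C (100000 * c)) (hD' : Dt x y z D' d') (hC' : Dt x y z C' (100000 * c'))
    (hW : Dt x y z We (100000 * W)) (hM : 0 < M)
    (h : check ((gLC D D').map exPol) (exPol (Ex.mul (Ex.c M) (pLC Xe D C D' C' We))) e = true) :
    LC X x c d c' d' W := by
  intro w s u h1 h2 h3 h4 h5 h6
  have k := cert (y := yv x y z w s u 0 0 0) h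
    (yv_nonneg hb.x0 hb.y0 hb.z0 h1 (h1.trans h3) (h1.trans h5) (le_refl 0) (le_refl 0) (le_refl 0))
    (by
      simp only [gLC, List.forall_mem_cons, exadd, exsub, exmul, exc, exv2, exv7, exv11, exv13,
        exv17, exv19, exv23, hD.h, hD'.h]
      push_cast
      exact ⟨h1, by linarith, by linarith, by linarith, by linarith, by linarith, h1.trans h5, h1.trans h3,
        bE_nn hb w s u 0 0 0⟩)
  have hE : exVal (yv x y z w s u 0 0 0) (Ex.sub (Ex.c 1) D') = 1 - d' := by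
    rw [exsub, exc, hD'.h]; push_cast; ring
  rw [exmul, exc, pLC] at k
  simp only [exadd, exsub, exmul, exc, exv2, exv7, exv11, exv13, exv17, exv19, exv23,
    hiE_val hX hD hC, mjE_val (hC'.h ..) hE (hD.h ..) (exv13 ..), vmE_val, hW.h] at k
  push_cast at k
  have k2 := fin_of hM (t := W - (mj X (1 - x) d s + mj c (1 - d) d w + mj c' (1 - d') d u + vm w))
    (by refine k.trans_eq ?_; ring)
  linarith

/-- a nonnegative number -/
theorem nn_of (hb : Bd x y z) (hK : Dt x y z Ke (100000 * K)) (hM : 0 < M)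
    (h : check (bE.map exPol) (exPol (Ex.mul (Ex.c M) (Ex.mul (Ex.c 6) Ke))) e = true) : 0 ≤ K := by
  have k := cert (y := yv x y z 0 0 0 0 0 0) h
    (yv_nonneg hb.x0 hb.y0 hb.z0 (le_refl 0) (le_refl 0) (le_refl 0) (le_refl 0) (le_refl 0)
      (le_refl 0)) (bE_nn hb 0 0 0 0 0 0)
  rw [exmul, exc, exmul, exc, hK.h] at k
  refine fin_of hM (k.trans_eq ?_)
  push_cast
  ring

/-- the number `c - d (1 - d)` -/
theorem lM_of (hb : Bd x y z) (hD : Dt x y z D d) (hC : Dt x y z C (100000 * c)) (hM : 0 < M)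
    (h : check (bE.map exPol) (exPol (Ex.mul (Ex.c M)
      (Ex.mul (Ex.c 6) (Ex.sub C (Ex.mul (Ex.mul (Ex.c 100000) D) (Ex.sub (Ex.c 1) D)))))) e =
      true) : d * (1 - d) ≤ c := by
  have k := nn_of (K := c - d * (1 - d)) hb ⟨fun w s u v A B => by
    rw [exsub, hC.h, exmul, exmul, exsub, exc, exc, hD.h]; push_cast; ring⟩ hM h
  linarith

end

end Pool.Agent.Helper83.TS
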