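import Pool.Agent.Helper83.TS.Glue
import Pool.Agent.Helper83.TS.T2311C1
import Pool.Agent.Helper83.TS.T2311C2
import Pool.Agent.Helper83.TS.T2311C3
import Pool.Agent.Helper83.TS.T2311C4
import Pool.Agent.Helper83.TS.T2311T

/-!
# Type (2,3,1,1): the case from the column lemma
-/

set_option autoImplicit false

namespace Pool.Agent.Helper83.TS

open Pool.Agent.Helper84.TS Pool.Agent.Helper78.TS T2311

theorem case2311_of (hC : Gives CC) : CaseT2311 := by
  refine caseT2311_of hC fun a b c d h => ?_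
  refine ⟨n1 a, n2 b, n3 c, n4 d, k12 a b, k13 a c, k14 a d, k23 b c, k24 b d, k34 c d,
    w1 b c d, w2 a c d, w3 a b d, w4 a b c, l231 b c, l241 b d, l341 c d, l132 a c, l142 a d,
    l342 c d, l123 a b, l143 a d, l243 b d, l124 a b, l134 a c, l234 b c,
    ⟨?_, ?_, ?_, ?_, ?_, ?_, tot h.a0 h.b0 h.c0 h.e0 h.a1.le h.b1.le h.c1.le h.e1.le⟩,
    col1 ⟨h.b0, h.c0, h.e0, h.b1.le, h.c1.le, h.e1.le⟩,
    col2 ⟨h.c0, h.a0, h.e0, h.c1.le, h.a1.le, h.e1.le⟩,
    col3 ⟨h.a0, h.b0, h.e0, h.a1.le, h.b1.le, h.e1.le⟩,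
    col4 ⟨h.a0, h.b0, h.c0, h.a1.le, h.b1.le, h.c1.le⟩⟩
  · unfold l124; linarith
  · unfold l134; linarith
  · unfold l143; linarith
  · unfold l234; linarith
  · unfold l243; linarith
  · unfold l342; linarith

end Pool.Agent.Helper83.TS
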