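import Pool.Agent.Helper83.TS.T2341D

/-!
# Type (2,3,4,1): the total
-/

set_option autoImplicit false
set_option maxRecDepth 100000

namespace Pool.Agent.Helper83.TS.T2341

open Pool.Agent.Helper83.Cert Pool.Agent.Helper36.TS

/-- **The total** of the type (2,3,4,1) -/
theorem tot {a b c d : ℝ} (ha : 0 ≤ a) (hb : 0 ≤ b) (hc : 0 ≤ c) (hd : 0 ≤ d)
    (ha1 : a ≤ 3 / 5) (hb1 : b ≤ 3 / 5) (hc1 : c ≤ 3 / 5) (hd1 : d ≤ 3 / 5) :
    rowc (n a) a + rowc (n b) b + rowc (n c) c + rowc (n d) d + ka a b * (a + b) + ko a c * (a + c)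
      + ka d a * (a + d) + ka b c * (b + c) + ko b d * (b + d) + ka c d * (c + d)
      + (wc b c d + wc c d a + wc d a b + wc a b c) ≤ 613 / 200 := by
  have h := cert (y := yv a b c d 0 0 0 0 0) (gs := [.v 2, .v 3, .v 5, .v 7, .sub (.c 3) (.mul (.c 5) (.v 2)), .sub (.c 3) (.mul (.c 5) (.v 3)), .sub
    (.c 3) (.mul (.c 5) (.v 5)), .sub (.c 3) (.mul (.c 5) (.v 7))])
    (p := .mul (.c 1250000) (.add (.add (.add (.add (.c (23576)) (.add (.mul (.c (-89364)) (.v 7)) (.mul (.mul (.c (112458))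
    (.v 7)) (.v 7)))) (.add (.add (.mul (.mul (.mul (.c (-17180)) (.v 7)) (.v 7)) (.v 7)) (.mul (.c
    (-89364)) (.v 5))) (.add (.mul (.mul (.c (337434)) (.v 5)) (.v 7)) (.mul (.mul (.mul (.c
    (-247200)) (.v 5)) (.v 7)) (.v 7))))) (.add (.add (.add (.mul (.mul (.c (112458)) (.v 5)) (.v 5))
    (.mul (.mul (.mul (.c (-247200)) (.v 5)) (.v 5)) (.v 7))) (.add (.mul (.mul (.mul (.c (-17180))
    (.v 5)) (.v 5)) (.v 5)) (.mul (.c (-89364)) (.v 3)))) (.add (.add (.mul (.mul (.c (333912)) (.v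
    3)) (.v 7)) (.mul (.mul (.mul (.c (-244260)) (.v 3)) (.v 7)) (.v 7))) (.add (.mul (.mul (.c
    (337434)) (.v 3)) (.v 5)) (.mul (.mul (.mul (.c (-247200)) (.v 3)) (.v 5)) (.v 5)))))) (.add (.add
    (.add (.add (.mul (.mul (.c (112458)) (.v 3)) (.v 3)) (.mul (.mul (.mul (.c (-244260)) (.v 3)) (.v
    3)) (.v 7))) (.add (.mul (.mul (.mul (.c (-247200)) (.v 3)) (.v 3)) (.v 5)) (.mul (.mul (.mul (.c
    (-17180)) (.v 3)) (.v 3)) (.v 3)))) (.add (.add (.mul (.c (-89364)) (.v 2)) (.mul (.mul (.c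
    (337434)) (.v 2)) (.v 7))) (.add (.mul (.mul (.mul (.c (-247200)) (.v 2)) (.v 7)) (.v 7)) (.mul
    (.mul (.c (333912)) (.v 2)) (.v 5))))) (.add (.add (.add (.mul (.mul (.mul (.c (-244260)) (.v 2))
    (.v 5)) (.v 5)) (.mul (.mul (.c (337434)) (.v 2)) (.v 3))) (.add (.mul (.mul (.mul (.c (-247200))
    (.v 2)) (.v 3)) (.v 3)) (.mul (.mul (.c (112458)) (.v 2)) (.v 2)))) (.add (.add (.mul (.mul (.mul
    (.c (-247200)) (.v 2)) (.v 2)) (.v 7)) (.mul (.mul (.mul (.c (-244260)) (.v 2)) (.v 2)) (.v 5)))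
    (.add (.mul (.mul (.mul (.c (-247200)) (.v 2)) (.v 2)) (.v 3)) (.mul (.mul (.mul (.c (-17180)) (.v
    2)) (.v 2)) (.v 2))))))))
    (e := (.add (.add (.add (.mul (.g 0) (.add (.add (.mul (.g 2) (.add (.add (.mul (.g 1) (.add (.add (.pp
    [(1, 2867250000)]) (.mul (.g 4) (.pp [(1, 49487250000)]))) (.add (.mul (.g 5) (.pp [(1,
    55848900000)])) (.add (.mul (.g 6) (.pp [(1, 24378450000)])) (.mul (.g 7) (.pp [(1,
    25790850000)])))))) (.mul (.g 3) (.add (.add (.pp [(1, 71931750000)]) (.mul (.g 4) (.pp [(1,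
    28280700000)]))) (.add (.mul (.g 6) (.pp [(1, 50627700000)])) (.mul (.g 7) (.pp [(1,
    38683200000)])))))) (.add (.mul (.g 4) (.add (.pp [(1, 13623750000)]) (.add (.mul (.g 0) (.pp [(1,
    5823900000)])) (.mul (.g 2) (.pp [(1, 11632650000)]))))) (.mul (.g 6) (.add (.pp [(1,
    20530050000)]) (.mul (.g 2) (.pp [(1, 5823900000)]))))))) (.add (.mul (.g 3) (.add (.mul (.g 1)
    (.add (.add (.pp [(1, 87138750000)]) (.mul (.g 4) (.pp [(1, 51272100000)]))) (.add (.mul (.g 5)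
    (.pp [(1, 50085300000)])) (.mul (.g 7) (.pp [(1, 38423700000)]))))) (.add (.mul (.g 4) (.add (.pp
    [(1, 15857250000)]) (.add (.mul (.g 0) (.pp [(1, 1419450000)])) (.mul (.g 3) (.pp [(1,
    9140400000)]))))) (.mul (.g 7) (.add (.pp [(1, 19386000000)]) (.mul (.g 3) (.pp [(1,
    4577700000)]))))))) (.mul (.g 1) (.add (.mul (.g 4) (.add (.pp [(1, 6470400000)]) (.mul (.g 1)
    (.pp [(1, 27397200000)])))) (.mul (.g 5) (.pp [(1, 23046150000)])))))) (.add (.mul (.g 0) (.mul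
    (.g 0) (.mul (.g 4) (.pp [(1, 15000000)])))) (.add (.mul (.g 5) (.mul (.pp [(1, 5482440)]) (.sq
    [(1, -11), (2, 50), (5, -26), (7, -26)]))) (.mul (.g 7) (.mul (.pp [(1, 1263300)]) (.sq [(1, -11),
    (2, 50), (3, -26), (5, -26)]))))))) (.mul (.g 1) (.add (.add (.mul (.g 2) (.add (.mul (.g 3) (.add
    (.add (.pp [(1, 81846750000)]) (.mul (.g 5) (.pp [(1, 27859050000)]))) (.add (.mul (.g 6) (.pp
    [(1, 51497100000)])) (.mul (.g 7) (.pp [(1, 52703400000)]))))) (.add (.mul (.g 6) (.add (.pp [(1,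
    15308850000)]) (.add (.mul (.g 1) (.pp [(1, 9104400000)])) (.mul (.g 2) (.pp [(1,
    1419450000)]))))) (.mul (.g 5) (.add (.pp [(1, 20919600000)]) (.mul (.g 1) (.pp [(1,
    1519800000)]))))))) (.mul (.g 3) (.add (.mul (.g 7) (.add (.pp [(1, 14937450000)]) (.add (.mul (.g
    1) (.pp [(1, 11432250000)])) (.mul (.g 7) (.pp [(1, 2224320000)]))))) (.mul (.g 5) (.add (.pp [(1,
    18035850000)]) (.mul (.g 1) (.pp [(1, 5723550000)]))))))) (.add (.mul (.g 1) (.mul (.g 1) (.mul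
    (.g 5) (.pp [(1, 15000000)])))) (.add (.mul (.g 4) (.mul (.pp [(1, 5482440)]) (.sq [(1, -11), (3,
    50), (5, -26), (7, -26)]))) (.mul (.g 6) (.mul (.pp [(1, 1216020)]) (.sq [(1, -11), (2, -26), (3,
    50), (7, -26)])))))))) (.add (.mul (.g 7) (.add (.add (.mul (.g 2) (.add (.mul (.pp [(1,
    5514840)]) (.sq [(1, -11), (2, -26), (3, -26), (5, 50)])) (.mul (.g 3) (.add (.mul (.g 2) (.pp
    [(1, 27559350000)])) (.mul (.g 3) (.pp [(1, 13787100000)])))))) (.mul (.g 5) (.add (.mul (.pp [(1,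
    530850000)]) (.sq [(2, 1), (5, -1)])) (.add (.mul (.pp [(1, 335172)]) (.sq [(1, -27), (2, 50), (3,
    50), (5, 50), (7, 50)])) (.mul (.pp [(1, 30378)]) (.sq [(1, -59), (2, 74), (3, 100), (5, 74), (7,
    100)])))))) (.add (.mul (.g 6) (.add (.mul (.pp [(1, 7140000)]) (.sq [(2, 1), (3, -1)])) (.add
    (.mul (.pp [(1, 199068)]) (.sq [(1, -27), (2, 50), (3, 50), (5, 50), (7, 50)])) (.mul (.pp [(1,
    225675)]) (.sq [(1, -59), (2, 74), (3, 74), (5, 100), (7, 100)]))))) (.add (.mul (.g 4) (.add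
    (.mul (.pp [(1, 1590000)]) (.sq [(3, 1), (5, -1)])) (.mul (.pp [(1, 365016)]) (.sq [(1, -27), (2,
    50), (3, 50), (5, 50), (7, 50)])))) (.mul (.g 3) (.mul (.g 3) (.mul (.g 3) (.pp [(1,
    15000000)])))))))) (.add (.mul (.g 6) (.add (.mul (.g 4) (.add (.mul (.pp [(1, 351300)]) (.sq [(1,
    -27), (2, 50), (3, 50), (5, 50), (7, 50)])) (.add (.mul (.pp [(1, 28353)]) (.sq [(1, -59), (2,
    100), (3, 74), (5, 100), (7, 74)])) (.mul (.pp [(1, 539700000)]) (.sq [(3, -1), (7, 1)]))))) (.add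
    (.mul (.g 2) (.add (.mul (.g 2) (.mul (.g 2) (.pp [(1, 15000000)]))) (.mul (.g 3) (.pp [(1,
    25074000000)])))) (.mul (.g 5) (.add (.mul (.pp [(1, 362124)]) (.sq [(1, -27), (2, 50), (3, 50),
    (5, 50), (7, 50)])) (.mul (.pp [(1, 363)]) (.sq [(1, -59), (2, 74), (3, 100), (5, 100), (7,
    74)]))))))) (.mul (.g 5) (.add (.mul (.g 4) (.add (.mul (.pp [(1, 227316)]) (.sq [(1, -59), (2,
    100), (3, 100), (5, 74), (7, 74)])) (.mul (.pp [(1, 186024)]) (.sq [(1, -27), (2, 50), (3, 50),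
    (5, 50), (7, 50)])))) (.add (.mul (.g 2) (.mul (.pp [(1, 1256100)]) (.sq [(1, -11), (2, -26), (5,
    50), (7, -26)]))) (.mul (.g 3) (.mul (.pp [(1, 6738060)]) (.sq [(1, -11), (2, -26), (5, -26), (7,
    50)]))))))))) (.pp [(1, 1625592091), (2, 74916723), (3, 74722539), (4, 75092856), (5, 74762337),
    (6, 74706660), (7, 74634591), (8, 75050000), (9, 75513048), (10, 75178371), (12, 75453180), (14,
    75435756), (15, 76144185), (16, 75000000), (18, 75271020), (20, 75054000), (21, 76015566), (24,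
    75000000), (25, 75287904), (27, 74600000), (28, 74737740), (30, 75204600), (35, 76158057), (36,
    75000000), (40, 75000000), (42, 74118960), (45, 74009400), (49, 75657912), (50, 74978520), (54,
    75000000), (56, 75000000), (60, 74820900), (63, 74290500), (70, 73709160), (75, 73869840), (81,
    75000000), (84, 75354600), (90, 74514300), (98, 74627340), (100, 74250000), (105, 72970680), (125,
    75050000), (126, 75204000), (135, 75750000), (140, 75491700), (147, 73866180), (150, 75264000),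
    (175, 73890240), (189, 75000000), (196, 75000000), (210, 75009000), (225, 75000000), (245,
    73960440), (250, 75000000), (294, 75594000), (315, 75821700), (343, 74600000), (350, 75924000),
    (375, 75000000), (441, 75750000), (490, 75474300), (525, 76614600), (625, 75000000), (686,
    75000000), (735, 75930900), (875, 75000000), (1029, 75000000), (1225, 75750000), (1715, 75000000),
    (2401, 75000000)])))
    (by decide +kernel) (yv_nonneg ha hb hc hd (le_refl 0) (le_refl 0) (le_refl 0) (le_refl 0) (le_refl 0))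
    (by
      simp only [List.forall_mem_cons, exsub, exmul, exc, exv2, exv3, exv5, exv7]
      push_cast
      exact ⟨ha, hb, hc, hd, by linarith, by linarith, by linarith, by linarith,
        fun _ hh => absurd hh List.not_mem_nil⟩)
  simp only [exadd, exmul, exc, exv2, exv3, exv5, exv7] at h
  push_cast at h
  simp only [rowc, n, ka, ko, wc]
  linarith [h]

end Pool.Agent.Helper83.TS.T2341
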