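import Pool.Agent.Helper83.TS.Glue
import Pool.Agent.Helper83.TS.T2341C
import Pool.Agent.Helper83.TS.T2341T

/-!
# Type (2,3,4,1): the case from the column lemma
-/

set_option autoImplicit false

namespace Pool.Agent.Helper83.TS

open Pool.Agent.Helper84.TS Pool.Agent.Helper78.TS T2341

theorem T2341.ko_comm (x y : ℝ) : ko x y = ko y x := by
  unfold ko
  ring

theorem case2341_of (hC : Gives CC) : CaseT2341 := by
  refine caseT2341_of hC fun a b c d h => ?_
  have c1 := T2341.col1 (x := b) (y := c) (z := d) ⟨h.b0, h.c0, h.e0, h.b1.le, h.c1.le, h.e1.le⟩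
  have c2 := T2341.col1 (x := c) (y := d) (z := a) ⟨h.c0, h.e0, h.a0, h.c1.le, h.e1.le, h.a1.le⟩
  have c3 := T2341.col1 (x := d) (y := a) (z := b) ⟨h.e0, h.a0, h.b0, h.e1.le, h.a1.le, h.b1.le⟩
  have c4 := T2341.col1 (x := a) (y := b) (z := c) ⟨h.a0, h.b0, h.c0, h.a1.le, h.b1.le, h.c1.le⟩
  have d2 : CC (n c) (n a) (n d) (ko a c) (ka c d) (ka d a) (lo c a) (lf c d) (lg d a)
      (wc c d a) c a d := by
    rw [ko_comm a c]
    exact CC.swap c2
  rw [ko_comm d b] at c3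
  refine ⟨n a, n b, n c, n d, ka a b, ko a c, ka d a, ka b c, ko b d, ka c d,
    wc b c d, wc c d a, wc d a b, wc a b c, lf b c, lo b d, lg c d, lo c a, lg d a, lf c d,
    lg a b, lf d a, lo d b, lf a b, lo a c, lg b c,
    ⟨?_, ?_, ?_, ?_, ?_, ?_, tot h.a0 h.b0 h.c0 h.e0 h.a1.le h.b1.le h.c1.le h.e1.le⟩,
    c1, d2, c3, c4⟩
  · unfold lg; linarith
  · unfold lo ko; linarith
  · unfold lg; linarith
  · unfold lg; linarith
  · unfold lo ko; linarith
  · unfold lg; linarith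

end Pool.Agent.Helper83.TS
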