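import Pool.Agent.Helper83.TS.Kinds
import Pool.Agent.Helper47.FC.Fin

/-!
# The inequalities of a column from certificates of `Helper47.FC`
-/

set_option autoImplicit false
set_option linter.all false

namespace Pool.Agent.Helper83.TS

open Pool.Agent.Helper83.Cert Pool.Agent.Helper47.FC

theorem fin_of9 {t : ℝ} (h : 0 ≤ 600000 * t) : 0 ≤ t := by linarith

section

variable {x y z X d c d' c' W K K' : ℝ} {Xe D C D' C' We Ke Ke' : Ex}

theorem rI_of9 (hb : Bd x y z) (hX : Dt x y z Xe (100000 * X)) (hD : Dt x y z D d) (hC : Dt x y z C (100000 * c)) (hD' : Dt x y z D' d') (hC' : Dt x y z C' (100000 * c'))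
    (hW : Dt x y z We (100000 * W)) (M k1 s1 k2 s2 : ℕ)
    (h : chkA V9 P9 1069 (gRI D D') (pRI Xe D C D' C' We) M k1 s1 k2 s2 = true) :
    RI X x c d c' d' W := by
  intro w A B s u v h1 h2 h3 h4 h5 h6 h7 h8 h9 h10 h11 h12 h13 h14 h15
  have k := chkA_sound (y := yv x y z w s u v A B) vars9 (by decide) h
    (yv_nonneg hb.x0 hb.y0 hb.z0 h1 (h1.trans h5) h7 h9 h3 h4)
    (by
      simp only [gRI, List.forall_mem_cons, exadd, exsub, exmul, exc, exv2, exv7, exv11, exv13,
        exv17, exv19, exv23, hD.h, hD'.h]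
      push_cast
      exact ⟨h1, by linarith, h3, h4, by linarith, by linarith, h7, by linarith, h9, by linarith, by linarith, by linarith, by linarith, by linarith, by linarith, h1.trans h5,
        bE_nn hb w s u v A B⟩)
  rw [pRI] at k
  simp only [exadd, exsub, exmul, exc, exv2, exv7, exv11, exv13, exv17, exv19, exv23,
    loE_val hX, stE_val (hC.h ..) (hD.h ..) (exv13 ..), stE_val (hC'.h ..) (hD'.h ..) (exv17 ..), hW.h] at k
  push_cast at k
  have k2 := fin_of9 (t := W - (mj X (1 - x) x s + st c d u + st c' d' v + w * A * B - w ^ 3 / 3))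
    (by refine k.trans_eq ?_; ring)
  linarith

theorem rII_of9 (hb : Bd x y z) (hX : Dt x y z Xe (100000 * X)) (hD : Dt x y z D d) (hC : Dt x y z C (100000 * c)) (hD' : Dt x y z D' d') (hC' : Dt x y z C' (100000 * c'))
    (hW : Dt x y z We (100000 * W)) (M k1 s1 k2 s2 : ℕ)
    (h : chkA V9 P9 1069 (gRII D D') (pRII Xe D C D' C' We) M k1 s1 k2 s2 = true) :
    RII X x c d c' d' W := by
  intro w A B s u v h1 h2 h3 h4 h5 h6 h7 h8 h9 h10 h11 h12 h13 h14 h15
  have k := chkA_sound (y := yv x y z w s u v A B) vars9 (by decide) h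
    (yv_nonneg hb.x0 hb.y0 hb.z0 h1 (h1.trans h5) h7 h9 h3 h4)
    (by
      simp only [gRII, List.forall_mem_cons, exadd, exsub, exmul, exc, exv2, exv7, exv11, exv13,
        exv17, exv19, exv23, hD.h, hD'.h]
      push_cast
      exact ⟨h1, by linarith, h3, h4, by linarith, by linarith, h7, by linarith, h9, by linarith, by linarith, by linarith, by linarith, by linarith, by linarith, h1.trans h5,
        bE_nn hb w s u v A B⟩)
  rw [pRII] at k
  simp only [exadd, exsub, exmul, exc, exv2, exv7, exv11, exv13, exv17, exv19, exv23,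
    loE_val hX, stE_val (hC.h ..) (hD.h ..) (exv13 ..), stE_val (hC'.h ..) (hD'.h ..) (exv17 ..), hW.h] at k
  push_cast at k
  have k2 := fin_of9 (t := W - (mj X (1 - x) x s + st c d u + st c' d' v + w * A * B - w ^ 2 * A / 3))
    (by refine k.trans_eq ?_; ring)
  linarith

/-- `d` the height of the other class, `d'` of the class `l` -/
theorem yY_of9 (hb : Bd x y z) (hX : Dt x y z Xe (100000 * X)) (hD : Dt x y z D d) (hC : Dt x y z C (100000 * c)) (hD' : Dt x y z D' d') (hC' : Dt x y z C' (100000 * c'))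
    (hW : Dt x y z We (100000 * W)) (M k1 s1 k2 s2 : ℕ)
    (h : chkA V9 P9 1069 (gYY D D') (pYY Xe D C D' C' We) M k1 s1 k2 s2 = true) :
    YY X x c d c' d' W := by
  intro w A s u h1 h2 h3 h4 h5 h6 h7 h8 h9
  have k := chkA_sound (y := yv x y z w s u 0 A 0) vars9 (by decide) h
    (yv_nonneg hb.x0 hb.y0 hb.z0 h1 (h1.trans h5) h7 (le_refl 0) h3 (le_refl 0))
    (by
      simp only [gYY, List.forall_mem_cons, exadd, exsub, exmul, exc, exv2, exv7, exv11, exv13,
        exv17, exv19, exv23, hD.h, hD'.h]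
      push_cast
      exact ⟨h1, by linarith, h3, by linarith, by linarith, by linarith, h7, by linarith, by linarith, h1.trans h5,
        bE_nn hb w s u 0 A 0⟩)
  rw [pYY] at k
  simp only [exadd, exsub, exmul, exc, exv2, exv7, exv11, exv13, exv17, exv19, exv23,
    loE_val hX, stE_val (hC.h ..) (hD.h ..) (exv13 ..), hC'.h, hD'.h, hW.h] at k
  push_cast at k
  have k2 := fin_of9 (t := W - (mj X (1 - x) x s + st c d u - c' * (w - d' - A) + w * A * (1 + w - A)
    - w ^ 2 * A / 3))
    (by refine k.trans_eq ?_; ring)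
  linarith

theorem nP_of9 (hb : Bd x y z) (hX : Dt x y z Xe (100000 * X)) (hD : Dt x y z D d) (hC : Dt x y z C (100000 * c)) (hD' : Dt x y z D' d') (hC' : Dt x y z C' (100000 * c'))
    (hW : Dt x y z We (100000 * W)) (M k1 s1 k2 s2 : ℕ)
    (h : chkA V9 P9 1069 (gNP) (pNP Xe D C D' C' We) M k1 s1 k2 s2 = true) :
    NP X x c d c' d' W := by
  intro s u v h1 h2 h3 h4 h5 h6
  have k := chkA_sound (y := yv x y z 0 s u v 0 0) vars9 (by decide) h
    (yv_nonneg hb.x0 hb.y0 hb.z0 (le_refl 0) h1 h3 h5 (le_refl 0) (le_refl 0))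
    (by
      simp only [gNP, List.forall_mem_cons, exadd, exsub, exmul, exc, exv2, exv7, exv11, exv13,
        exv17, exv19, exv23]
      push_cast
      exact ⟨h1, by linarith, h3, by linarith, h5, by linarith,
        bE_nn hb 0 s u v 0 0⟩)
  rw [pNP] at k
  simp only [exadd, exsub, exmul, exc, exv2, exv7, exv11, exv13, exv17, exv19, exv23,
    stE_val (hX.h ..) (exv2 ..) (exv11 ..), stE_val (hC.h ..) (hD.h ..) (exv13 ..), stE_val (hC'.h ..) (hD'.h ..) (exv17 ..), hW.h] at k
  push_cast at k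
  have k2 := fin_of9 (t := W - (st X x s + st c d u + st c' d' v))
    (by refine k.trans_eq ?_; ring)
  linarith

theorem bc_of9 (hb : Bd x y z) (hX : Dt x y z Xe (100000 * X)) (hD : Dt x y z D d) (hC : Dt x y z C (100000 * c)) (hD' : Dt x y z D' d') (hC' : Dt x y z C' (100000 * c')) (hK : Dt x y z Ke (100000 * K))
    (hW : Dt x y z We (100000 * W)) (M k1 s1 k2 s2 : ℕ)
    (h : chkA V9 P9 1069 (gB) (pBc Xe D C D' C' We Ke) M k1 s1 k2 s2 = true) :
    Bc X x c d c' d' K W := by
  intro w s u v h1 h2 h3 h4 h5 h6 h7 h8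
  have k := chkA_sound (y := yv x y z w s u v 0 0) vars9 (by decide) h
    (yv_nonneg hb.x0 hb.y0 hb.z0 h1 (h1.trans h3) h5 h7 (le_refl 0) (le_refl 0))
    (by
      simp only [gB, List.forall_mem_cons, exadd, exsub, exmul, exc, exv2, exv7, exv11, exv13,
        exv17, exv19, exv23]
      push_cast
      exact ⟨h1, by linarith, by linarith, by linarith, h5, by linarith, h7, by linarith, h1.trans h3,
        bE_nn hb w s u v 0 0⟩)
  rw [pBc] at k
  simp only [exadd, exsub, exmul, exc, exv2, exv7, exv11, exv13, exv17, exv19, exv23,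
    loE_val hX, stE_val (hC.h ..) (hD.h ..) (exv13 ..), stE_val (hC'.h ..) (hD'.h ..) (exv17 ..), vmE_val, hK.h, hW.h] at k
  push_cast at k
  have k2 := fin_of9 (t := W - (mj X (1 - x) x s + st c d u + st c' d' v - K * (v + w) + vm w))
    (by refine k.trans_eq ?_; ring)
  linarith

theorem bB_of9 (hb : Bd x y z) (hX : Dt x y z Xe (100000 * X)) (hD : Dt x y z D d) (hC : Dt x y z C (100000 * c)) (hD' : Dt x y z D' d') (hC' : Dt x y z C' (100000 * c')) (hK : Dt x y z Ke (100000 * K)) (hK' : Dt x y z Ke' (100000 * K'))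
    (hW : Dt x y z We (100000 * W)) (M k1 s1 k2 s2 : ℕ)
    (h : chkA V9 P9 1069 (gB) (pBB Xe D C D' C' We Ke Ke') M k1 s1 k2 s2 = true) :
    BB X x c d c' d' K K' W := by
  intro w s u v h1 h2 h3 h4 h5 h6 h7 h8
  have k := chkA_sound (y := yv x y z w s u v 0 0) vars9 (by decide) h
    (yv_nonneg hb.x0 hb.y0 hb.z0 h1 (h1.trans h3) h5 h7 (le_refl 0) (le_refl 0))
    (by
      simp only [gB, List.forall_mem_cons, exadd, exsub, exmul, exc, exv2, exv7, exv11, exv13,
        exv17, exv19, exv23]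
      push_cast
      exact ⟨h1, by linarith, by linarith, by linarith, h5, by linarith, h7, by linarith, h1.trans h3,
        bE_nn hb w s u v 0 0⟩)
  rw [pBB] at k
  simp only [exadd, exsub, exmul, exc, exv2, exv7, exv11, exv13, exv17, exv19, exv23,
    loE_val hX, stE_val (hC.h ..) (hD.h ..) (exv13 ..), stE_val (hC'.h ..) (hD'.h ..) (exv17 ..), vmE_val, hK.h, hK'.h, hW.h] at k
  push_cast at k
  have k2 := fin_of9 (t := W - (mj X (1 - x) x s + st c d u + st c' d' v - K * (u + w) - K' * (v + w)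
    + vm w))
    (by refine k.trans_eq ?_; ring)
  linarith

theorem bxI_of9 (hb : Bd x y z) (hX : Dt x y z Xe (100000 * X)) (hD : Dt x y z D d) (hC : Dt x y z C (100000 * c)) (hD' : Dt x y z D' d') (hC' : Dt x y z C' (100000 * c')) (hK : Dt x y z Ke (100000 * K))
    (hW : Dt x y z We (100000 * W)) (M k1 s1 k2 s2 : ℕ)
    (h : chkA V9 P9 1069 (gBxI D) (pBxI Xe D C D' C' We Ke) M k1 s1 k2 s2 = true) :
    BxI X x c d c' d' K W := by
  intro w A s u v h1 h2 h3 h4 h5 h6 h7 h8 h9 h10 h11 h12 h13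
  have k := chkA_sound (y := yv x y z w s u v A 0) vars9 (by decide) h
    (yv_nonneg hb.x0 hb.y0 hb.z0 h1 (h1.trans h5) h7 h9 h3 (le_refl 0))
    (by
      simp only [gBxI, List.forall_mem_cons, exadd, exsub, exmul, exc, exv2, exv7, exv11, exv13,
        exv17, exv19, exv23, hD.h]
      push_cast
      exact ⟨h1, by linarith, h3, by linarith, by linarith, by linarith, h7, by linarith, h9, by linarith, by linarith, by linarith, by linarith, h1.trans h5,
        bE_nn hb w s u v A 0⟩)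
  rw [pBxI] at k
  simp only [exadd, exsub, exmul, exc, exv2, exv7, exv11, exv13, exv17, exv19, exv23,
    loE_val hX, stE_val (hC.h ..) (hD.h ..) (exv13 ..), stE_val (hC'.h ..) (hD'.h ..) (exv17 ..), hK.h, hW.h] at k
  push_cast at k
  have k2 := fin_of9 (t := W - (mj X (1 - x) x s + st c d u + st c' d' v - K * (v + w)
    + w * A * (1 + w - A) - w ^ 3 / 3))
    (by refine k.trans_eq ?_; ring)
  linarith

theorem bxII_of9 (hb : Bd x y z) (hX : Dt x y z Xe (100000 * X)) (hD : Dt x y z D d) (hC : Dt x y z C (100000 * c)) (hD' : Dt x y z D' d') (hC' : Dt x y z C' (100000 * c')) (hK : Dt x y z Ke (100000 * K))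
    (hW : Dt x y z We (100000 * W)) (M k1 s1 k2 s2 : ℕ)
    (h : chkA V9 P9 1069 (gBxII D) (pBxII Xe D C D' C' We Ke) M k1 s1 k2 s2 = true) :
    BxII X x c d c' d' K W := by
  intro w A s u v h1 h2 h3 h4 h5 h6 h7 h8 h9 h10 h11 h12
  have k := chkA_sound (y := yv x y z w s u v A 0) vars9 (by decide) h
    (yv_nonneg hb.x0 hb.y0 hb.z0 h1 (h1.trans h5) h7 h9 h3 (le_refl 0))
    (by
      simp only [gBxII, List.forall_mem_cons, exadd, exsub, exmul, exc, exv2, exv7, exv11, exv13,
        exv17, exv19, exv23, hD.h]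
      push_cast
      exact ⟨h1, by linarith, h3, by linarith, by linarith, by linarith, h7, by linarith, h9, by linarith, by linarith, by linarith, h1.trans h5,
        bE_nn hb w s u v A 0⟩)
  rw [pBxII] at k
  simp only [exadd, exsub, exmul, exc, exv2, exv7, exv11, exv13, exv17, exv19, exv23,
    loE_val hX, stE_val (hC.h ..) (hD.h ..) (exv13 ..), stE_val (hC'.h ..) (hD'.h ..) (exv17 ..), hK.h, hW.h] at k
  push_cast at k
  have k2 := fin_of9 (t := W - (mj X (1 - x) x s + st c d u + st c' d' v - K * (v + w)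
    + w * A * (1 + w - A) - w ^ 2 * A / 3))
    (by refine k.trans_eq ?_; ring)
  linarith

theorem bxV_of9 (hb : Bd x y z) (hX : Dt x y z Xe (100000 * X)) (hD : Dt x y z D d) (hC : Dt x y z C (100000 * c)) (hD' : Dt x y z D' d') (hC' : Dt x y z C' (100000 * c')) (hK : Dt x y z Ke (100000 * K))
    (hW : Dt x y z We (100000 * W)) (M k1 s1 k2 s2 : ℕ)
    (h : chkA V9 P9 1069 (gBxV D) (pBxV Xe D C D' C' We Ke) M k1 s1 k2 s2 = true) :
    BxV X x c d c' d' K W := by
  intro w A s u v h1 h2 h3 h4 h5 h6 h7 h8 h9 h10 h11 h12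
  have k := chkA_sound (y := yv x y z w s u v A 0) vars9 (by decide) h
    (yv_nonneg hb.x0 hb.y0 hb.z0 h1 (h1.trans h5) h7 h9 h3 (le_refl 0))
    (by
      simp only [gBxV, List.forall_mem_cons, exadd, exsub, exmul, exc, exv2, exv7, exv11, exv13,
        exv17, exv19, exv23, hD.h]
      push_cast
      exact ⟨h1, by linarith, h3, by linarith, by linarith, by linarith, h7, by linarith, h9, by linarith, by linarith, by linarith, h1.trans h5,
        bE_nn hb w s u v A 0⟩)
  rw [pBxV] at k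
  simp only [exadd, exsub, exmul, exc, exv2, exv7, exv11, exv13, exv17, exv19, exv23,
    loE_val hX, stE_val (hC.h ..) (hD.h ..) (exv13 ..), stE_val (hC'.h ..) (hD'.h ..) (exv17 ..), hK.h, hW.h] at k
  push_cast at k
  have k2 := fin_of9 (t := W - (mj X (1 - x) x s + st c d u + st c' d' v - K * (v + w)
    + w * A * (1 + w - A) - w ^ 2 * (1 + w - A) / 3))
    (by refine k.trans_eq ?_; ring)
  linarith

theorem bz_of9 (hb : Bd x y z) (hX : Dt x y z Xe (100000 * X)) (hD' : Dt x y z D' d') (hC' : Dt x y z C' (100000 * c')) (hK : Dt x y z Ke (100000 * K))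
    (hW : Dt x y z We (100000 * W)) (M k1 s1 k2 s2 : ℕ)
    (h : chkA V9 P9 1069 (gBz) (pBz Xe D' C' We Ke) M k1 s1 k2 s2 = true) :
    Bz X x c' d' K W := by
  intro w s u h1 h2 h3 h4 h5 h6
  have k := chkA_sound (y := yv x y z w s u 0 0 0) vars9 (by decide) h
    (yv_nonneg hb.x0 hb.y0 hb.z0 h1 (h1.trans h3) h5 (le_refl 0) (le_refl 0) (le_refl 0))
    (by
      simp only [gBz, List.forall_mem_cons, exadd, exsub, exmul, exc, exv2, exv7, exv11, exv13,
        exv17, exv19, exv23]
      push_cast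
      exact ⟨h1, by linarith, by linarith, by linarith, h5, by linarith, h1.trans h3,
        bE_nn hb w s u 0 0 0⟩)
  rw [pBz] at k
  simp only [exadd, exsub, exmul, exc, exv2, exv7, exv11, exv13, exv17, exv19, exv23,
    loE_val hX, stE_val (hC'.h ..) (hD'.h ..) (exv13 ..), vmE_val, hK.h, hW.h] at k
  push_cast at k
  have k2 := fin_of9 (t := W - (mj X (1 - x) x s + st c' d' u - K * (u + w) + vm w))
    (by refine k.trans_eq ?_; ring)
  linarith

theorem lA1_of9 (hb : Bd x y z) (hX : Dt x y z Xe (100000 * X)) (hD : Dt x y z D d) (hC : Dt x y z C (100000 * c)) (hD' : Dt x y z D' d') (hC' : Dt x y z C' (100000 * c'))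
    (hW : Dt x y z We (100000 * W)) (M k1 s1 k2 s2 : ℕ)
    (h : chkA V9 P9 1069 (gLA1 D D') (pLA1 Xe D C D' C' We) M k1 s1 k2 s2 = true) :
    LA1 X x c d c' d' W := by
  intro w B s u h1 h2 h3 h4 h5 h6 h7 h8 h9
  have k := chkA_sound (y := yv x y z w s u 0 0 B) vars9 (by decide) h
    (yv_nonneg hb.x0 hb.y0 hb.z0 h1 (h1.trans h3) h5 (le_refl 0) (le_refl 0) (h1.trans h8))
    (by
      simp only [gLA1, List.forall_mem_cons, exadd, exsub, exmul, exc, exv2, exv7, exv11, exv13,
        exv17, exv19, exv23, hD.h, hD'.h]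
      push_cast
      exact ⟨h1, by linarith, by linarith, by linarith, h5, by linarith, by linarith, by linarith, by linarith, h1.trans h8, h1.trans h3,
        bE_nn hb w s u 0 0 B⟩)
  rw [pLA1] at k
  simp only [exadd, exsub, exmul, exc, exv2, exv7, exv11, exv13, exv17, exv19, exv23,
    hiE_val hX hD hC, stE_val (hC'.h ..) (hD'.h ..) (exv13 ..), hW.h] at k
  push_cast at k
  have k2 := fin_of9 (t := W - (mj X (1 - x) d s + mj c (1 - d) d w + st c' d' u + w * (1 + w - B) * B
    - w ^ 3 / 3))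
    (by refine k.trans_eq ?_; ring)
  linarith

theorem lA2_of9 (hb : Bd x y z) (hX : Dt x y z Xe (100000 * X)) (hD : Dt x y z D d) (hC : Dt x y z C (100000 * c)) (hD' : Dt x y z D' d') (hC' : Dt x y z C' (100000 * c'))
    (hW : Dt x y z We (100000 * W)) (M k1 s1 k2 s2 : ℕ)
    (h : chkA V9 P9 1069 (gLA2 D D') (pLA2 Xe D C D' C' We) M k1 s1 k2 s2 = true) :
    LA2 X x c d c' d' W := by
  intro w B s u h1 h2 h3 h4 h5 h6 h7 h8 h9
  have k := chkA_sound (y := yv x y z w s u 0 0 B) vars9 (by decide) h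
    (yv_nonneg hb.x0 hb.y0 hb.z0 h1 (h1.trans h3) h5 (le_refl 0) (le_refl 0) h8)
    (by
      simp only [gLA2, List.forall_mem_cons, exadd, exsub, exmul, exc, exv2, exv7, exv11, exv13,
        exv17, exv19, exv23, hD.h, hD'.h]
      push_cast
      exact ⟨h1, by linarith, by linarith, by linarith, h5, by linarith, by linarith, h8, by linarith, h1.trans h3,
        bE_nn hb w s u 0 0 B⟩)
  rw [pLA2] at k
  simp only [exadd, exsub, exmul, exc, exv2, exv7, exv11, exv13, exv17, exv19, exv23,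
    hiE_val hX hD hC, stE_val (hC'.h ..) (hD'.h ..) (exv13 ..), hW.h] at k
  push_cast at k
  have k2 := fin_of9 (t := W - (mj X (1 - x) d s + mj c (1 - d) d w + st c' d' u + w * (1 + w - B) * B
    - w ^ 2 * B / 3))
    (by refine k.trans_eq ?_; ring)
  linarith

theorem lB_of9 (hb : Bd x y z) (hX : Dt x y z Xe (100000 * X)) (hD : Dt x y z D d) (hC : Dt x y z C (100000 * c)) (hD' : Dt x y z D' d') (hC' : Dt x y z C' (100000 * c')) (hK : Dt x y z Ke (100000 * K))
    (hW : Dt x y z We (100000 * W)) (M k1 s1 k2 s2 : ℕ)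
    (h : chkA V9 P9 1069 (gLB D) (pLB Xe D C D' C' We Ke) M k1 s1 k2 s2 = true) :
    LB X x c d c' d' K W := by
  intro w s u h1 h2 h3 h4 h5 h6
  have k := chkA_sound (y := yv x y z w s u 0 0 0) vars9 (by decide) h
    (yv_nonneg hb.x0 hb.y0 hb.z0 h1 (h1.trans h3) h5 (le_refl 0) (le_refl 0) (le_refl 0))
    (by
      simp only [gLB, List.forall_mem_cons, exadd, exsub, exmul, exc, exv2, exv7, exv11, exv13,
        exv17, exv19, exv23, hD.h]
      push_cast
      exact ⟨h1, by linarith, by linarith, by linarith, h5, by linarith, h1.trans h3,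
        bE_nn hb w s u 0 0 0⟩)
  rw [pLB] at k
  simp only [exadd, exsub, exmul, exc, exv2, exv7, exv11, exv13, exv17, exv19, exv23,
    hiE_val hX hD hC, stE_val (hC'.h ..) (hD'.h ..) (exv13 ..), vmE_val, hK.h, hW.h] at k
  push_cast at k
  have k2 := fin_of9 (t := W - (mj X (1 - x) d s + mj c (1 - d) d w + st c' d' u - K * (u + w) + vm w))
    (by refine k.trans_eq ?_; ring)
  linarith

theorem lC_of9 (hb : Bd x y z) (hX : Dt x y z Xe (100000 * X)) (hD : Dt x y z D d) (hC : Dt x y z C (100000 * c)) (hD' : Dt x y z D' d') (hC' : Dt x y z C' (100000 * c'))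
    (hW : Dt x y z We (100000 * W)) (M k1 s1 k2 s2 : ℕ)
    (h : chkA V9 P9 1069 (gLC D D') (pLC Xe D C D' C' We) M k1 s1 k2 s2 = true) :
    LC X x c d c' d' W := by
  intro w s u h1 h2 h3 h4 h5 h6
  have k := chkA_sound (y := yv x y z w s u 0 0 0) vars9 (by decide) h
    (yv_nonneg hb.x0 hb.y0 hb.z0 h1 (h1.trans h3) (h1.trans h5) (le_refl 0) (le_refl 0) (le_refl 0))
    (by
      simp only [gLC, List.forall_mem_cons, exadd, exsub, exmul, exc, exv2, exv7, exv11, exv13,
        exv17, exv19, exv23, hD.h, hD'.h]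
      push_cast
      exact ⟨h1, by linarith, by linarith, by linarith, by linarith, by linarith, h1.trans h5, h1.trans h3,
        bE_nn hb w s u 0 0 0⟩)
  have hE : exVal (yv x y z w s u 0 0 0) (Ex.sub (Ex.c 1) D') = 1 - d' := by
    rw [exsub, exc, hD'.h]; push_cast; ring
  rw [pLC] at k
  simp only [exadd, exsub, exmul, exc, exv2, exv7, exv11, exv13, exv17, exv19, exv23,
    hiE_val hX hD hC, mjE_val (hC'.h ..) hE (hD.h ..) (exv13 ..), vmE_val, hW.h] at k
  push_cast at k
  have k2 := fin_of9 (t := W - (mj X (1 - x) d s + mj c (1 - d) d w + mj c' (1 - d') d u + vm w))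
    (by refine k.trans_eq ?_; ring)
  linarith

/-- a nonnegative number -/
theorem nn_of9 (hb : Bd x y z) (hK : Dt x y z Ke (100000 * K)) (M k1 s1 k2 s2 : ℕ)
    (h : chkA V9 P9 1069 bE (Ex.mul (Ex.c 6) Ke) M k1 s1 k2 s2 = true) : 0 ≤ K := by
  have k := chkA_sound (y := yv x y z 0 0 0 0 0 0) vars9 (by decide) h
    (yv_nonneg hb.x0 hb.y0 hb.z0 (le_refl 0) (le_refl 0) (le_refl 0) (le_refl 0) (le_refl 0)
      (le_refl 0)) (bE_nn hb 0 0 0 0 0 0)
  rw [exmul, exc, hK.h] at k
  refine fin_of9 (k.trans_eq ?_)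
  push_cast
  ring

/-- the number `c - d (1 - d)` -/
theorem lM_of9 (hb : Bd x y z) (hD : Dt x y z D d) (hC : Dt x y z C (100000 * c)) (M k1 s1 k2 s2 : ℕ)
    (h : chkA V9 P9 1069 bE
      (Ex.mul (Ex.c 6) (Ex.sub C (Ex.mul (Ex.mul (Ex.c 100000) D) (Ex.sub (Ex.c 1) D))))
      M k1 s1 k2 s2 = true) : d * (1 - d) ≤ c := by
  have k := nn_of9 (K := c - d * (1 - d)) hb ⟨fun w s u v A B => by
    rw [exsub, hC.h, exmul, exmul, exsub, exc, exc, hD.h]; push_cast; ring⟩ M k1 s1 k2 s2 h
  linarith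

end

end Pool.Agent.Helper83.TS
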