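import Pool.Agent.Helper83.TS.Kinds

/-!
# Type (2,3,1,1): the multipliers
-/

set_option autoImplicit false

namespace Pool.Agent.Helper83.TS.T2311

noncomputable def n1 (x : ℝ) : ℝ := 10411 / 10000 + 3 / 40 * x - 3169 / 10000 * x ^ 2

noncomputable def n2 (x : ℝ) : ℝ := 4283 / 5000 - 5369 / 10000 * x + 1577 / 10000 * x ^ 2

noncomputable def n3 (x : ℝ) : ℝ := 8641 / 10000 - 117 / 250 * x - 29 / 2000 * x ^ 2

noncomputable def n4 (x : ℝ) : ℝ := 2143 / 2500 - 1133 / 2000 * x + 369 / 10000 * x ^ 2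

noncomputable def k12 (x y : ℝ) : ℝ := 4269 / 10000 - 143 / 625 * x - 1181 / 2500 * y + 5443 / 10000 * x * y

noncomputable def k13 (x y : ℝ) : ℝ := 4963 / 10000 - 687 / 2000 * x - 891 / 2000 * y + 2353 / 10000 * x * y

noncomputable def k14 (x y : ℝ) : ℝ := 1251 / 2000 - 913 / 2000 * x - 1179 / 2000 * y + 839 / 2500 * x * y

noncomputable def k23 (x y : ℝ) : ℝ := 2343 / 5000 - 3861 / 10000 * x - 4069 / 10000 * y + 1231 / 10000 * x * y

noncomputable def k24 (x y : ℝ) : ℝ := 2101 / 5000 - 2111 / 10000 * x - 2003 / 5000 * y + 1229 / 10000 * x * y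

noncomputable def k34 (x y : ℝ) : ℝ := 3991 / 10000 - 541 / 1250 * x - 1791 / 5000 * y + 4189 / 10000 * x * y

/-! ### The shares of the slacks: `lijm` is the multiple of the slack of the pair `i, j` in the
column `m` -/

noncomputable def l123 (x y : ℝ) : ℝ := 831 / 3125 - 3563 / 25000 * x - 14713 / 50000 * y + 2119 / 6250 * x * y

noncomputable def l124 (x y : ℝ) : ℝ := k12 x y - l123 x y

noncomputable def l132 (x y : ℝ) : ℝ := 33297 / 100000 - 4609 / 20000 * x - 29889 / 100000 * y + 7893 / 50000 * x * y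

noncomputable def l134 (x y : ℝ) : ℝ := k13 x y - l132 x y

noncomputable def l142 (x y : ℝ) : ℝ := 30543 / 100000 - 22291 / 100000 * x - 5757 / 20000 * y + 16387 / 100000 * x * y

noncomputable def l143 (x y : ℝ) : ℝ := k14 x y - l142 x y

noncomputable def l231 (x y : ℝ) : ℝ := 21689 / 50000 - 35741 / 100000 * x - 37667 / 100000 * y + 2279 / 20000 * x * y

noncomputable def l234 (x y : ℝ) : ℝ := k23 x y - l231 x y

noncomputable def l241 (x y : ℝ) : ℝ := 32099 / 100000 - 8063 / 50000 * x - 15301 / 50000 * y + 2347 / 25000 * x * y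

noncomputable def l243 (x y : ℝ) : ℝ := k24 x y - l241 x y

noncomputable def l341 (x y : ℝ) : ℝ := 16507 / 100000 - 17901 / 100000 * x - 2963 / 20000 * y + 8663 / 50000 * x * y

noncomputable def l342 (x y : ℝ) : ℝ := k34 x y - l341 x y

/-! ### The bounds of the columns, as functions of the other three heights (in order) -/

noncomputable def w1 (x y z : ℝ) : ℝ :=
  24607 / 50000 + 36441 / 100000 * x + 16707 / 100000 * y + 4381 / 25000 * z - 888 / 3125 * x ^ 2 + 19819 / 100000 * y ^ 2 - 461 / 20000 * z ^ 2 + 39549 / 100000 * x * y + 4299 / 20000 * x * z + 22437 / 100000 * y * z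

noncomputable def w2 (x y z : ℝ) : ℝ :=
  57403 / 100000 + 71049 / 100000 * x + 2557 / 12500 * y + 5927 / 50000 * z - 22119 / 100000 * x ^ 2 - 1041 / 12500 * y ^ 2 + 15779 / 100000 * z ^ 2 + 6007 / 20000 * x * y + 14867 / 100000 * x * z + 71 / 1250 * y * z

noncomputable def w3 (x y z : ℝ) : ℝ :=
  23731 / 50000 + 15723 / 100000 * x - 511 / 50000 * y + 3157 / 100000 * z + 7497 / 50000 * x ^ 2 + 6901 / 20000 * y ^ 2 + 18247 / 50000 * z ^ 2 + 10537 / 100000 * x * y + 11789 / 25000 * x * z + 11499 / 50000 * y * z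

noncomputable def w4 (x y z : ℝ) : ℝ :=
  4621 / 10000 + 6797 / 25000 * x + 10617 / 100000 * y + 18517 / 100000 * z + 17071 / 100000 * x ^ 2 + 2601 / 6250 * y ^ 2 + 12253 / 50000 * z ^ 2 - 1877 / 25000 * x * y + 5017 / 25000 * x * z + 12127 / 50000 * y * z

end Pool.Agent.Helper83.TS.T2311
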