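import Pool.Agent.Helper83.TS.Kinds

/-!
# Type (2,3,4,1): the multipliers

Everything is invariant under the cyclic symmetry: one multiplier `n` for the rows, `ka` for the
adjacent pairs, `ko` for the opposite pairs. In a column `x, y, z` are the heights of the classes in
the cyclic order; `x` belongs to the lowest class.
-/

set_option autoImplicit false

namespace Pool.Agent.Helper83.TS.T2341

noncomputable def n (x : ℝ) : ℝ := 8601 / 10000 - 4429 / 10000 * x - 1953 / 10000 * x ^ 2

noncomputable def ka (x y : ℝ) : ℝ := 197 / 400 - 4849 / 10000 * x - 543 / 1250 * y + 103 / 250 * x * y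

noncomputable def ko (x y : ℝ) : ℝ := 881 / 2500 - 3617 / 10000 * x - 3617 / 10000 * y + 4071 / 10000 * x * y

/-- the share of the slack of the first and second class -/
noncomputable def lf (x y : ℝ) : ℝ := 4789 / 20000 - 2367 / 12500 * x - 25761 / 100000 * y + 20031 / 100000 * x * y

/-- the share of the slack of the second and third class -/
noncomputable def lg (x y : ℝ) : ℝ := ka x y - lf x y

/-- the share of the slack of the first and third class -/
noncomputable def lo (x y : ℝ) : ℝ := 881 / 5000 - 337 / 4000 * x - 5549 / 20000 * y + 4071 / 20000 * x * y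

/-- the bound of the column -/
noncomputable def wc (x y z : ℝ) : ℝ :=
  22493 / 50000 + 31871 / 100000 * x + 9261 / 50000 * y + 22481 / 100000 * z - 13069 / 100000 * x ^ 2 + 7133 / 100000 * y ^ 2 + 1473 / 100000 * z ^ 2 + 4777 / 25000 * x * y + 1043 / 12500 * x * z + 16583 / 100000 * y * z

end Pool.Agent.Helper83.TS.T2341
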